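import Pool.Agent.helper56.P3.Defs2

/-!
# P3: small utilities
-/

namespace Pool.Agent.helper56.P3

open Finset Pool.Agent.helper56.Per

variable {K : Type*} [Field K] {Γ : Type*} [LinearOrderedCommGroupWithZero Γ]

theorem ne_zero_of_v_one {v : Valuation K Γ} {x : K} (h : v x = 1) : x ≠ 0 := by
  rintro rfl
  rw [map_zero] at h
  exact zero_ne_one h

theorem Ctx.b0 {v : Valuation K Γ} {b c : K} (h : Ctx v b c) : b ≠ 0 := ne_zero_of_v_one h.vb

theorem Ctx.b1 {v : Valuation K Γ} {b c : K} (h : Ctx v b c) : b ≠ 1 := by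
  rintro rfl
  have := h.hbc
  rw [sub_self, map_zero] at this
  exact not_lt_zero this

/-- `|TT b c j| |c| = |b^j - 1|` if `|b| = 1` -/
theorem v_TT {v : Valuation K Γ} {b c : K} (hb : v b = 1) (hc : c ≠ 0) (j : ℕ) :
    v (TT b c j) * v c = v (b ^ j - 1) := by
  have hb0 : b ≠ 0 := ne_zero_of_v_one hb
  have hc0 : v c ≠ 0 := (v.ne_zero_iff).2 hc
  unfold TT
  have e : (1 - b⁻¹ ^ j) = b⁻¹ ^ j * (b ^ j - 1) := by
    rw [mul_sub, mul_one, ← mul_pow, inv_mul_cancel₀ hb0, one_pow]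
  rw [e, map_div₀, map_mul, map_pow, map_inv₀, hb, inv_one, one_pow, one_mul,
    div_mul_cancel₀ _ hc0]

theorem TT_le_of_rot {v : Valuation K Γ} {b c : K} {q : ℕ} (hc : Ctx v b c) (hr : Rot v b c q) :
    v (TT b c q) ≤ 1 := by
  have hc0 : v c ≠ 0 := (v.ne_zero_iff).2 hc.c0
  have h1 := hr.le
  rw [← v_TT hc.vb hc.c0] at h1
  have h2 : v (TT b c q) * v c ≤ 1 * v c := by rwa [one_mul]
  exact le_of_mul_le_mul_right h2 (zero_lt_iff.2 hc0)

/-- `TT (j + l) = TT j + b^{-j} TT l` -/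
theorem TT_add {b c : K} (j l : ℕ) : TT b c (j + l) = TT b c j + b⁻¹ ^ j * TT b c l := by
  unfold TT
  rw [pow_add]
  ring

/-- the size of the multiplicative inverse of a big element -/
theorem v_inv_lt_one {v : Valuation K Γ} {x : K} (h : 1 < v x) : v x⁻¹ < 1 := by
  rw [map_inv₀]
  exact inv_lt_one_of_one_lt₀ h

theorem v_inv_gt_one {v : Valuation K Γ} {x : K} (hx : x ≠ 0) (h : v x < 1) : 1 < v x⁻¹ := by
  rw [map_inv₀]
  exact (one_lt_inv₀ (zero_lt_iff.2 ((v.ne_zero_iff).2 hx))).2 h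

/-- unit lemma: `v (x - y) < 1`, `v y = 1` gives `v x = 1` -/
theorem v_eq_one_of_sub {v : Valuation K Γ} {x y : K} (h : v (x - y) < 1) (hy : v y = 1) :
    v x = 1 := by
  have e : x = y + (x - y) := by ring
  rw [e, Valuation.map_add_eq_of_lt_left v (by rwa [hy]), hy]

theorem v_eq_of_sub_lt {v : Valuation K Γ} {x y : K} (h : v (x - y) < v y) : v x = v y := by
  have e : x = y + (x - y) := by ring
  rw [e, Valuation.map_add_eq_of_lt_left v h]

end Pool.Agent.helper56.P3
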