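import Pool.Agent.helper36.P3.Places
import Pool.Agent.helper39.P3.WBasic
import Pool.Agent.helper69.P3.C1
import Pool.Agent.helper95.P3.ClassifyA
import Pool.Agent.helper95.P3.ClassifyB
import Pool.Agent.helper96.P3.Return
import Pool.Agent.helper56.P3.Util

/-!
# P3-C2: central chains at a place
-/

namespace Pool.Agent.helper56.P3

open Finset Pool.Agent.helper56.Per

section Cg

variable {k K : Type*} [Field k] [Field K] [Algebra k K] {P : ValuationSubring K}

theorem cg_le (hP : IsPl k P) {x : K} {α : k} (h : P.valuation (x - algebraMap k K α) < 1) :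
    P.valuation x ≤ 1 := by
  have e : x = algebraMap k K α + (x - algebraMap k K α) := by ring
  rw [e]
  exact P.valuation.map_add_le (hP.cst_le α) h.le

theorem cg_eq_one (hP : IsPl k P) {x : K} {α : k} (h : P.valuation (x - algebraMap k K α) < 1)
    (hα : α ≠ 0) : P.valuation x = 1 := v_eq_one_of_sub h (hP.cst α hα)

theorem cg_add {x y : K} {α β : k} (h : P.valuation (x - algebraMap k K α) < 1)
    (h' : P.valuation (y - algebraMap k K β) < 1) :
    P.valuation (x + y - algebraMap k K (α + β)) < 1 := by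
  have e : x + y - algebraMap k K (α + β) = (x - algebraMap k K α) + (y - algebraMap k K β) := by
    rw [map_add]; ring
  rw [e]
  exact Valuation.map_add_lt _ h h'

theorem cg_mul (hP : IsPl k P) {x y : K} {α β : k}
    (h : P.valuation (x - algebraMap k K α) < 1) (h' : P.valuation (y - algebraMap k K β) < 1) :
    P.valuation (x * y - algebraMap k K (α * β)) < 1 := by
  have e : x * y - algebraMap k K (α * β)
      = (x - algebraMap k K α) * y + algebraMap k K α * (y - algebraMap k K β) := by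
    rw [map_mul]; ring
  rw [e]
  apply Valuation.map_add_lt
  · rw [map_mul]
    exact lt1_of_lt_of_le h (cg_le hP h')
  · rw [map_mul]
    exact lt1_of_le_of_lt (hP.cst_le α) h'

theorem cg_inv (hP : IsPl k P) {x : K} {α : k} (h : P.valuation (x - algebraMap k K α) < 1)
    (hα : α ≠ 0) : P.valuation (x⁻¹ - algebraMap k K α⁻¹) < 1 := by
  have h1 := cg_eq_one hP h hα
  have hx0 : x ≠ 0 := ne_zero_of_v_one h1
  have hα0 : algebraMap k K α ≠ 0 := (_root_.map_ne_zero _).2 hα
  have e : x⁻¹ - algebraMap k K α⁻¹ = -(x - algebraMap k K α) * (x⁻¹ * (algebraMap k K α)⁻¹) := by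
    rw [map_inv₀]; field_simp; ring
  rw [e, map_mul, Valuation.map_neg, map_mul, map_inv₀, map_inv₀, h1, hP.cst α hα, inv_one,
    mul_one, mul_one]
  exact h

theorem cg_const (α : k) : P.valuation (algebraMap k K α - algebraMap k K α) < 1 := by
  rw [sub_self, map_zero]; exact zero_lt_one

theorem cg_prod (hP : IsPl k P) {ι : Type*} (s : Finset ι) {f : ι → K} {g : ι → k}
    (h : ∀ i ∈ s, P.valuation (f i - algebraMap k K (g i)) < 1) :
    P.valuation (∏ i ∈ s, f i - algebraMap k K (∏ i ∈ s, g i)) < 1 := by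
  classical
  induction s using Finset.induction_on with
  | empty => simp
  | insert a s ha ih =>
    rw [prod_insert ha, prod_insert ha]
    exact cg_mul hP (h a (mem_insert_self _ _)) (ih fun i hi => h i (mem_insert_of_mem hi))

end Cg

theorem prod_range_qp {M : Type*} [CommMonoid M] (f : ℕ → M) (q p : ℕ) :
    ∏ i ∈ range (q * p), f i = ∏ j ∈ range p, ∏ l ∈ range q, f (q * j + l) := by
  induction p with
  | zero => simp
  | succ p ih => rw [Nat.mul_succ, prod_range_add, ih, prod_range_succ]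

theorem prod_shift_any {M : Type*} [CommMonoid M] (g : ℕ → M) (n : ℕ) (h : ∀ i, g (i + n) = g i)
    (k : ℕ) : ∏ i ∈ range n, g (k + i) = ∏ i ∈ range n, g i := by
  induction k with
  | zero => simp
  | succ k ih =>
    rw [← ih]
    have := prod_shift (fun i => g (k + i)) n (by
      show g (k + n) = g (k + 0)
      rw [h, add_zero])
    rw [← this]
    exact prod_congr rfl fun i _ => by rw [show k + 1 + i = k + (i + 1) by ring]

section

variable {k K : Type*} [Field k] [Field K] [Algebra k K] {P : ValuationSubring K} {b c : K}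
  {n q : ℕ} {lam : k} {W : ℕ → K} {t : k}

/-- one step of the chain -/
theorem chain_step (hP : IsPl k P) (hc : Ctx P.valuation b c) (hr : Rot P.valuation b c q)
    (h : WCyc b c n (algebraMap k K lam) W) (ht : P.valuation (TT b c q - algebraMap k K t) < 1)
    {w : k} (hw : w ≠ 0) {i : ℕ} (hi : P.valuation (W i - algebraMap k K w) < 1) :
    (∀ l, 0 < l → l < q → 1 < P.valuation (W (i + l))) ∧
      P.valuation (W (i + q) - algebraMap k K (w + w⁻¹ + t)) < 1 := by
  have h1 := cg_eq_one hP hi hw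
  obtain ⟨h2, h3⟩ := h.central_next P.valuation hc hr h1
  refine ⟨fun l hl hlq => (h2 l hl hlq).1, ?_⟩
  have h4 := cg_add (cg_add hi (cg_inv hP hi hw)) ht
  have e : W (i + q) - algebraMap k K (w + w⁻¹ + t)
      = (W (i + q) - (W i + (W i)⁻¹ + TT b c q))
        + (W i + (W i)⁻¹ + TT b c q - algebraMap k K (w + w⁻¹ + t)) := by ring
  rw [e]
  exact Valuation.map_add_lt _ h3 h4

/-- the orbit of `w` under `G_t` -/
noncomputable def gorb (t w : k) : ℕ → k
  | 0 => w
  | j + 1 => gorb t w j + (gorb t w j)⁻¹ + t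

/-- every central point of a type II cycle is an iterated preimage of `0` under `G_t` -/
theorem chain_II (hP : IsPl k P) (hc : Ctx P.valuation b c) (hr : Rot P.valuation b c q)
    (h : WCyc b c n (algebraMap k K lam) W) (ht : P.valuation (TT b c q - algebraMap k K t) < 1)
    (hII : TyII P.valuation W) {w : k} (hw : w ≠ 0) {i : ℕ}
    (hi : P.valuation (W i - algebraMap k K w) < 1) : ∃ ℓ, 0 < ℓ ∧ Hits w t ℓ := by
  classical
  have hq : 0 < q := by have := hr.two_le; omega
  have hn : 0 < n := h.npos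
  by_cases hex : ∃ j, gorb t w j = 0
  · refine ⟨Nat.find hex, ?_, gorb t w, rfl, fun j hj => ⟨Nat.find_min hex hj, rfl⟩,
      Nat.find_spec hex⟩
    rw [Nat.pos_iff_ne_zero]
    intro h0
    have := Nat.find_spec hex
    rw [h0] at this
    exact hw this
  · push Not at hex
    exfalso
    have key : ∀ j, P.valuation (W (i + q * j) - algebraMap k K (gorb t w j)) < 1 := by
      intro j
      induction j with
      | zero => exact hi
      | succ j ih =>
        have := (chain_step hP hc hr h ht (hex j) ih).2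
        rwa [add_assoc, ← Nat.mul_succ] at this
    obtain ⟨i1, hi1⟩ := hII
    have h1 : i ≤ i * n := Nat.le_mul_of_pos_right _ hn
    obtain ⟨l, hl⟩ : ∃ l, l = i1 + i * n - i := ⟨_, rfl⟩
    have h2 : i1 + i * n = i + q * (l / q) + l % q := by
      have := Nat.div_add_mod l q
      omega
    have h3 : P.valuation (W (i1 + i * n)) < 1 := by rwa [per_mul h.per]
    rw [h2] at h3
    rcases Nat.eq_zero_or_pos (l % q) with h4 | h4
    · rw [h4, add_zero, cg_eq_one hP (key _) (hex _)] at h3
      exact lt_irrefl _ h3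
    · have h5 := (chain_step hP hc hr h ht (hex _) (key (l / q))).1 _ h4 (Nat.mod_lt _ hq)
      exact absurd h3 (not_lt.2 h5.le)

/-- the near-critical visits of a type II cycle -/
theorem near_II [CharZero k] [Algebra.IsAlgebraic ℚ k] (hP : IsPl k P)
    (hc : Ctx P.valuation b c) (hr : Rot P.valuation b c q)
    (h : WCyc b c n (algebraMap k K lam) W) (hl : lam ≠ 0)
    (ht : P.valuation (TT b c q - algebraMap k K t) < 1) (hII : TyII P.valuation W) :
    ∃ ε : k, ε ^ 2 = 1 ∧ (∃ ℓ, 0 < ℓ ∧ Hits ε t ℓ) ∧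
      (∀ i, P.valuation (W i) = 1 → P.valuation (W i ^ 2 - 1) < 1 →
        P.valuation (W i - algebraMap k K ε) < 1) ∧
      ∃ i, P.valuation (W i) = 1 ∧ P.valuation (W i ^ 2 - 1) < 1 := by
  have key : ∀ i, P.valuation (W i) = 1 → P.valuation (W i ^ 2 - 1) < 1 →
      ∃ ε : k, ε ^ 2 = 1 ∧ (∃ ℓ, 0 < ℓ ∧ Hits ε t ℓ) ∧
        P.valuation (W i - algebraMap k K ε) < 1 := by
    intro i h1 h2
    obtain ⟨ε, hε⟩ := hP.res _ h1.le
    have h3 := cg_mul hP hε hε
    have h4 : ε * ε = 1 := by
      apply hP.res_unique h3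
      rw [map_one, ← sq]
      exact h2
    have hε0 : ε ≠ 0 := by
      rintro rfl
      rw [mul_zero] at h4
      exact zero_ne_one h4
    exact ⟨ε, by rw [sq]; exact h4, chain_II hP hc hr h ht hII hε0 hε, hε⟩
  obtain ⟨i, hi1, hi2⟩ := h.near_exists P.valuation hc.vb (hP.cst _ hl) hII
  obtain ⟨ε, h1, ⟨ℓ, hℓ, hH⟩, h3⟩ := key i hi1 hi2
  refine ⟨ε, h1, ⟨ℓ, hℓ, hH⟩, fun j hj1 hj2 => ?_, i, hi1, hi2⟩
  obtain ⟨ε', h1', ⟨ℓ', _, hH'⟩, h3'⟩ := key j hj1 hj2
  rw [(hits_sign h1 h1' hH hH').1]
  exact h3'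

/-- residues of an outer factor -/
theorem cg_outer {x : K} (hx : 1 < P.valuation x) :
    P.valuation (1 - x⁻¹ - algebraMap k K 1) < 1 := by
  rw [map_one, show (1 : K) - x⁻¹ - 1 = -x⁻¹ by ring, Valuation.map_neg]
  exact v_inv_lt_one hx

theorem cg_bpow (hc : Ctx P.valuation b c) (hr : Rot P.valuation b c q) (p : ℕ) :
    P.valuation (b ^ (q * p) - algebraMap k K 1) < 1 := by
  rw [map_one, pow_mul]
  have h1 : P.valuation (b ^ q - 1) < 1 := hr.le.trans_lt hc.vc
  induction p with
  | zero => simp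
  | succ p ih =>
    have e : (b ^ q) ^ (p + 1) - 1 = (b ^ q) ^ p * (b ^ q - 1) + ((b ^ q) ^ p - 1) := by ring
    rw [e]
    apply Valuation.map_add_lt _ _ ih
    rw [map_mul, map_pow, map_pow, hc.vb, one_pow, one_pow, one_mul]
    exact h1

/-- the central cycle of a type I cycle -/
theorem chain_I [CharZero k] (hP : IsPl k P) (hc : Ctx P.valuation b c)
    (hr : Rot P.valuation b c q)
    (h : WCyc b c n (algebraMap k K lam) W)
    (ht : P.valuation (TT b c q - algebraMap k K t) < 1) (hI : TyI P.valuation W) {i0 : ℕ}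
    (hi0 : P.valuation (W i0) = 1) :
    ∃ (p : ℕ) (x : ℕ → k), 0 < p ∧ n = q * p ∧
      (∀ j, P.valuation (W (i0 + q * j) - algebraMap k K (x j)) < 1) ∧
      (∀ j, x j ≠ 0) ∧ (∀ j, x j ^ 2 ≠ 1) ∧ (∀ j, x (j + 1) = x j + (x j)⁻¹ + t) ∧
      (∀ j, x (j + p) = x j) ∧ (∀ j l, 0 < l → l < q → 1 < P.valuation (W (i0 + q * j + l))) ∧
      lam = ∏ j ∈ range p, (1 - (x j ^ 2)⁻¹) := by
  have hq : 0 < q := by have := hr.two_le; omega
  have hn : 0 < n := h.npos
  have hnz : ∀ {x : K} {α : k}, P.valuation x = 1 → P.valuation (x - algebraMap k K α) < 1 →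
      α ≠ 0 := by
    rintro x α h1 h2 rfl
    rw [map_zero, sub_zero, h1] at h2
    exact lt_irrefl _ h2
  have hcen : ∀ j, P.valuation (W (i0 + q * j)) = 1 := by
    intro j
    induction j with
    | zero => exact hi0
    | succ j ih =>
      obtain ⟨w, hw⟩ := hP.res _ ih.le
      have h1 := (chain_step hP hc hr h ht (hnz ih hw) hw).2
      rw [add_assoc, ← Nat.mul_succ] at h1
      exact le_antisymm (cg_le hP h1) (hI.1 _)
  have hres : ∀ j, ∃ w : k, P.valuation (W (i0 + q * j) - algebraMap k K w) < 1 := fun j =>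
    hP.res _ (hcen j).le
  choose x hx using hres
  have hx0 : ∀ j, x j ≠ 0 := fun j => hnz (hcen j) (hx j)
  have hout : ∀ j l, 0 < l → l < q → 1 < P.valuation (W (i0 + q * j + l)) := fun j l hl hlq =>
    (chain_step hP hc hr h ht (hx0 j) (hx j)).1 l hl hlq
  have hstep : ∀ j, x (j + 1) = x j + (x j)⁻¹ + t := by
    intro j
    have h1 := (chain_step hP hc hr h ht (hx0 j) (hx j)).2
    rw [add_assoc, ← Nat.mul_succ] at h1
    exact hP.res_unique (hx (j + 1)) h1
  have hqn : q ∣ n := by
    rw [Nat.dvd_iff_mod_eq_zero]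
    by_contra h0
    have h1 := hout (n / q) (n % q) (Nat.pos_of_ne_zero h0) (Nat.mod_lt _ hq)
    rw [add_assoc, Nat.div_add_mod, h.per, hi0] at h1
    exact lt_irrefl _ h1
  obtain ⟨p, hp⟩ := hqn
  have hp0 : 0 < p := by
    rcases Nat.eq_zero_or_pos p with rfl | h0
    · rw [mul_zero] at hp; omega
    · exact h0
  refine ⟨p, x, hp0, hp, hx, hx0, fun j h1 => ?_, hstep, fun j => ?_, hout, ?_⟩
  · have h2 := hI.2.2 _ (hcen j)
    have h3 := cg_mul hP (hx j) (hx j)
    rw [← sq, ← sq, h1, map_one, h2] at h3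
    exact lt_irrefl _ h3
  · apply hP.res_unique (hx (j + p))
    rw [show i0 + q * (j + p) = i0 + q * j + n by rw [hp]; ring, h.per]
    exact hx j
  · -- the product formula
    have h1 := h.lam_prod
    rw [← prod_shift_any (fun i => 1 - (W i ^ 2)⁻¹) n (fun i => by simp only [h.per]) i0, hp,
      prod_range_qp] at h1
    have h2 : P.valuation (∏ j ∈ range p, ∏ l ∈ range q, (1 - (W (i0 + (q * j + l)) ^ 2)⁻¹)
        - algebraMap k K (∏ j ∈ range p, (1 - (x j ^ 2)⁻¹))) < 1 := by
      apply cg_prod hP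
      intro j _
      obtain ⟨q', rfl⟩ : ∃ q', q = q' + 1 := ⟨q - 1, by omega⟩
      rw [prod_range_succ']
      have h3 : P.valuation (∏ l ∈ range q', (1 - (W (i0 + ((q' + 1) * j + (l + 1))) ^ 2)⁻¹)
          - algebraMap k K (∏ _l ∈ range q', 1)) < 1 := by
        apply cg_prod hP
        intro l hl
        apply cg_outer
        rw [map_pow]
        exact one_lt_pow₀ (by
          have := hout j (l + 1) (by omega) (by have := mem_range.1 hl; omega)
          rwa [add_assoc] at this) two_ne_zero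
      have h4 : P.valuation (1 - (W (i0 + ((q' + 1) * j + 0)) ^ 2)⁻¹
          - algebraMap k K (1 - (x j ^ 2)⁻¹)) < 1 := by
        rw [add_zero]
        have h5 := cg_inv hP (cg_mul hP (hx j) (hx j)) (mul_ne_zero (hx0 j) (hx0 j))
        rw [← sq, ← sq] at h5
        rw [map_sub (algebraMap k K), map_one (algebraMap k K), sub_sub_sub_cancel_left,
          Valuation.map_sub_swap]
        exact h5
      have h5 := cg_mul hP h3 h4
      rwa [prod_const_one, one_mul] at h5
    rw [h1] at h2
    have h3 := cg_mul hP (cg_const (P := P) (K := K) lam) (cg_bpow (k := k) hc hr p)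
    rw [mul_one] at h3
    exact hP.res_unique h3 h2

/-- if the reduced cycle is constant `= w`, `p ≥ 2`, then `λ = 1` -/
theorem chain_I_const [CharZero k] (hP : IsPl k P) (hc : Ctx P.valuation b c)
    (hr : Rot P.valuation b c q) (h : WCyc b c n (algebraMap k K lam) W)
    (ht : P.valuation (TT b c q - algebraMap k K t) < 1) (hI : TyI P.valuation W) {i0 p : ℕ}
    (hn : n = q * p) (hp : 2 ≤ p) {w : k}
    (hw : ∀ j, P.valuation (W (i0 + q * j) - algebraMap k K w) < 1) (hw0 : w ≠ 0) :
    lam = 1 := by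
  have hq : 2 ≤ q := hr.two_le
  have hi0 : P.valuation (W i0) = 1 := by
    have := cg_eq_one hP (hw 0) hw0
    rwa [mul_zero, add_zero] at this
  obtain ⟨p', x, _, hp', hx, _, _, _, _, hout, hlam⟩ := chain_I hP hc hr h ht hI hi0
  have hpp : p' = p := by
    have : q * p' = q * p := by rw [← hp', hn]
    exact Nat.eq_of_mul_eq_mul_left (by omega) this
  subst hpp
  have hxw : ∀ j, x j = w := fun j => hP.res_unique (hx j) (hw j)
  have hlam' : lam = ∏ _j ∈ range p', (1 - (w ^ 2)⁻¹) := by
    rw [hlam]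
    exact prod_congr rfl fun j _ => by rw [hxw]
  have hnd : ¬ n ∣ q := by
    intro hd
    have h1 := Nat.le_of_dvd (by omega) hd
    rw [hn] at h1
    have h2 : q * 2 ≤ q * p' := Nat.mul_le_mul_left _ hp
    omega
  have h1 := h.shift_prod hnd
  rw [← prod_shift_any (fun i => 1 - (W (i + q) * W i)⁻¹) n (fun i => by
    show 1 - (W (i + n + q) * W (i + n))⁻¹ = _
    rw [show i + n + q = i + q + n by ring, h.per, h.per]) i0, hn, prod_range_qp] at h1
  have h2 : P.valuation (∏ j ∈ range p', ∏ l ∈ range q,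
      (1 - (W (i0 + (q * j + l) + q) * W (i0 + (q * j + l)))⁻¹)
      - algebraMap k K (∏ _j ∈ range p', (1 - (w ^ 2)⁻¹))) < 1 := by
    apply cg_prod hP
    intro j _
    obtain ⟨q', rfl⟩ : ∃ q', q = q' + 1 := ⟨q - 1, by omega⟩
    rw [prod_range_succ']
    have h3 : P.valuation (∏ l ∈ range q',
        (1 - (W (i0 + ((q' + 1) * j + (l + 1)) + (q' + 1)) * W (i0 + ((q' + 1) * j + (l + 1))))⁻¹)
        - algebraMap k K (∏ _l ∈ range q', 1)) < 1 := by
      apply cg_prod hP
      intro l hl
      have hl' := mem_range.1 hl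
      apply cg_outer
      rw [map_mul]
      apply one_lt_mul''
      · have := hout (j + 1) (l + 1) (by omega) (by omega)
        rwa [show i0 + (q' + 1) * (j + 1) + (l + 1)
          = i0 + ((q' + 1) * j + (l + 1)) + (q' + 1) by ring] at this
      · have := hout j (l + 1) (by omega) (by omega)
        rwa [add_assoc] at this
    have h4 : P.valuation (1 - (W (i0 + ((q' + 1) * j + 0) + (q' + 1))
        * W (i0 + ((q' + 1) * j + 0)))⁻¹ - algebraMap k K (1 - (w ^ 2)⁻¹)) < 1 := by
      rw [add_zero, show i0 + (q' + 1) * j + (q' + 1) = i0 + (q' + 1) * (j + 1) by ring]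
      have h5 := cg_inv hP (cg_mul hP (hw (j + 1)) (hw j)) (mul_ne_zero hw0 hw0)
      rw [← sq w] at h5
      rw [map_sub (algebraMap k K), map_one (algebraMap k K), sub_sub_sub_cancel_left,
          Valuation.map_sub_swap]
      exact h5
    have h5 := cg_mul hP h3 h4
    rwa [prod_const_one, one_mul] at h5
  rw [h1] at h2
  rw [hlam']
  exact hP.res_unique h2 (cg_bpow (k := k) hc hr p')

end

end Pool.Agent.helper56.P3
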