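import Pool.Agent.helper13.P3.Fields
import Pool.Agent.helper36.P3.Places
import Pool.Agent.helper56.P3.Util
import Pool.Agent.helper78.P3.MinPrime
import Pool.Agent.helper8.P3.Transfer
import Pool.Agent.helper86.P3.GermClosed

/-!
# P3-C: the core of the closure version
-/

namespace Pool.Agent.helper56.P3

open Finset Pool.Agent.helper56.Per IntermediateField

section Map

variable {K K' : Type*} [Field K] [Field K']

theorem sg1_map (f : K →+* K') (a b : K) : f (sg1 a b) = sg1 (f a) (f b) := by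
  unfold sg1
  rw [map_add, map_add, map_div₀, map_sub, map_sub, map_sub, map_mul, map_one, map_ofNat]

theorem sg2_map (f : K →+* K') (a b : K) : f (sg2 a b) = sg2 (f a) (f b) := by
  unfold sg2
  rw [map_add, map_mul, map_mul, map_add, map_div₀, map_sub, map_sub, map_sub, map_mul, map_one,
    map_ofNat]

end Map

section Psi

variable {T K : Type} [Field K] (ψ : (T → ℂ) →+* K)

theorem psi_ne_zero {x : T → ℂ} (h : ∀ t, x t ≠ 0) : ψ x ≠ 0 := by
  intro h0
  have e : x * (fun t => (x t)⁻¹) = 1 := by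
    funext t
    simp [h t]
  have := congrArg ψ e
  rw [map_mul, map_one, h0, zero_mul] at this
  exact zero_ne_one this

theorem psi_ne {x y : T → ℂ} (h : ∀ t, x t ≠ y t) : ψ x ≠ ψ y := by
  intro h0
  apply psi_ne_zero ψ (x := x - y) (fun t => sub_ne_zero.2 (h t))
  rw [map_sub, h0, sub_self]

theorem psi_div {x y : T → ℂ} (h : ∀ t, y t ≠ 0) : ψ (fun t => x t / y t) = ψ x / ψ y := by
  rw [eq_div_iff (psi_ne_zero ψ h), ← map_mul]
  congr 1
  funext t
  exact div_mul_cancel₀ _ (h t)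

theorem psi_sg {a b : T → ℂ} (h : ∀ t, a t * b t ≠ 1) :
    ψ (fun t => sg1 (a t) (b t)) = sg1 (ψ a) (ψ b) ∧
    ψ (fun t => sg2 (a t) (b t)) = sg2 (ψ a) (ψ b) := by
  have h1 : ∀ t, 1 - a t * b t ≠ 0 := fun t => sub_ne_zero.2 (Ne.symm (h t))
  have e3 : ψ (fun t => (2 - a t - b t) / (1 - a t * b t))
      = (2 - ψ a - ψ b) / (1 - ψ a * ψ b) := by
    rw [psi_div ψ h1]
    have e1 : ψ (fun t => 2 - a t - b t) = 2 - ψ a - ψ b := by
      rw [← map_ofNat ψ 2, ← map_sub, ← map_sub]; rfl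
    have e2 : ψ (fun t => 1 - a t * b t) = 1 - ψ a * ψ b := by
      rw [← map_mul, ← map_one ψ, ← map_sub]; rfl
    rw [e1, e2]
  constructor
  · unfold sg1
    rw [← e3, ← map_add, ← map_add]; rfl
  · unfold sg2
    rw [← e3, ← map_add, ← map_mul, ← map_mul, ← map_add]; rfl

theorem psi_QC {n : ℕ} {lam : ℂ} {a b : T → ℂ} (h : ∀ t, QC n lam (a t) (b t)) :
    QC n (ψ fun _ => lam) (ψ a) (ψ b) := by
  choose z hz hzx using h
  have hT : Nonempty T := by
    by_contra hc
    rw [not_nonempty_iff] at hc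
    have : (0 : T → ℂ) = 1 := Subsingleton.elim _ _
    have := congrArg ψ this
    rw [map_zero, map_one] at this
    exact zero_ne_one this
  obtain ⟨t0⟩ := hT
  refine ⟨fun i => ψ fun t => z t i, ⟨(hz t0).npos, fun i => psi_ne_zero ψ fun j => (hz j).ne0 i,
    fun i => ?_, fun i => ?_, fun i => ?_, fun i => psi_ne ψ fun j => (hz j).ne i, ?_⟩, ?_⟩
  · have : ψ b * ψ (fun j => z j i) + 1 = ψ (fun j => b j * z j i + 1) := by
      rw [← map_mul, ← map_one ψ, ← map_add]; rfl
    rw [this]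
    exact psi_ne_zero ψ fun j => (hz j).den i
  · have e : (fun j => z j (i + 1)) * (b * (fun j => z j i) + 1)
        = (fun j => z j i) * ((fun j => z j i) + a) := by
      funext j
      exact (hz j).step i
    have := congrArg ψ e
    simpa only [map_mul, map_add, map_one] using this
  · have : (fun j => z j (i + n)) = fun j => z j i := funext fun j => (hz j).per i
    rw [this]
  · have e : ∏ i ∈ range n, (b * (fun j => z j i) ^ 2 + 2 * (fun j => z j i) + a)
        = (fun _ => lam) * ∏ i ∈ range n, (b * (fun j => z j i) + 1) ^ 2 := by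
      funext j
      rw [Finset.prod_apply, Pi.mul_apply, Finset.prod_apply]
      exact (hz j).mul
    have := congrArg ψ e
    rw [map_mul, map_prod, map_prod] at this
    simpa only [map_mul, map_add, map_one, map_pow, map_ofNat] using this
  · intro i j hij
    by_contra hne
    exact psi_ne ψ (fun t h0 => hne (hzx t i j h0)) hij

/-- evaluation at a generic point -/
theorem psi_eval [Algebra ℂ K] (hψ : ∀ x : ℂ, ψ (fun _ => x) = algebraMap ℂ K x)
    (s : T → Fin 2 → ℂ) {u v : K} (hu : ψ (fun t => s t 0) = u) (hv : ψ (fun t => s t 1) = v)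
    (P : MvPolynomial (Fin 2) ℂ) :
    ψ (fun t => MvPolynomial.eval (s t) P) = MvPolynomial.aeval ![u, v] P := by
  have e : ψ.comp (RingHom.pi fun t => MvPolynomial.eval (s t))
      = (MvPolynomial.aeval ![u, v] : MvPolynomial (Fin 2) ℂ →ₐ[ℂ] K).toRingHom := by
    apply MvPolynomial.ringHom_ext
    · intro x
      simp only [RingHom.comp_apply]
      rw [show (RingHom.pi fun t => MvPolynomial.eval (s t)) (MvPolynomial.C x)
        = fun _ => x from funext fun t => MvPolynomial.eval_C x]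
      rw [hψ]
      simp
    · intro i
      simp only [RingHom.comp_apply]
      rw [show (RingHom.pi fun t => MvPolynomial.eval (s t)) (MvPolynomial.X i)
        = fun t => s t i from funext fun t => MvPolynomial.eval_X i]
      fin_cases i
      · simpa using hu
      · simpa using hv
  exact congrArg (fun g => g P) e

end Psi

section Alg

/-- one cycle: a small field -/
theorem single_field {k Ω : Type} [Field k] [Field Ω] [Algebra k Ω] [IsAlgClosed k]
    [IsAlgClosed Ω] {a b : Ω} {n : ℕ} {l : k} (h : QC n (algebraMap k Ω l) a b) (hab : a * b ≠ 1)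
    (hnc : ¬ (a ∈ Set.range (algebraMap k Ω) ∧ b ∈ Set.range (algebraMap k Ω))) :
    ∃ (E : Type) (_ : Field E) (_ : Algebra k E) (_ : IsAlgClosed E) (ι : E →ₐ[k] Ω) (a' b' : E),
      TD1 k E ∧ ι a' = a ∧ ι b' = b ∧ QC n (algebraMap k E l) a' b' := by
  obtain ⟨z, hz, hzx⟩ := h
  obtain ⟨t, hta, htb⟩ : ∃ t : Ω, IsAlgebraic k⟮t⟯ a ∧ IsAlgebraic k⟮t⟯ b := by
    by_cases ha : IsAlgebraic k a
    · obtain ⟨α, hα⟩ := mem_range_of_alg ha
      refine ⟨b, ?_, ?_⟩
      · have : a = algebraMap k⟮b⟯ Ω (algebraMap k k⟮b⟯ α) := hα.symm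
        rw [this]
        exact isAlgebraic_algebraMap _
      · exact isAlgebraic_algebraMap (A := Ω) (AdjoinSimple.gen k b)
    · refine ⟨a, ?_, alg_of_large hz ha⟩
      exact isAlgebraic_algebraMap (A := Ω) (AdjoinSimple.gen k a)
  have hcl : IsAlgClosed (algebraicClosure k⟮t⟯ Ω) := (algebraicClosure.isAlgClosure k⟮t⟯ Ω).isAlgClosed
  have ma : a ∈ algebraicClosure k⟮t⟯ Ω := mem_algebraicClosure_iff.2 hta
  have mb : b ∈ algebraicClosure k⟮t⟯ Ω := mem_algebraicClosure_iff.2 htb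
  have hnc' : ¬ ((⟨a, ma⟩ : algebraicClosure k⟮t⟯ Ω) ∈ Set.range (algebraMap k (algebraicClosure k⟮t⟯ Ω)) ∧
      (⟨b, mb⟩ : algebraicClosure k⟮t⟯ Ω) ∈ Set.range (algebraMap k (algebraicClosure k⟮t⟯ Ω))) := by
    rintro ⟨⟨α, hα⟩, ⟨β, hβ⟩⟩
    exact hnc ⟨⟨α, congrArg Subtype.val hα⟩, ⟨β, congrArg Subtype.val hβ⟩⟩
  have hab' : (⟨a, ma⟩ : algebraicClosure k⟮t⟯ Ω) * ⟨b, mb⟩ ≠ 1 := fun h0 => hab (congrArg Subtype.val h0)
  have hst : IsScalarTower k (algebraicClosure k⟮t⟯ Ω) Ω := IsScalarTower.of_algebraMap_eq fun x => rfl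
  have hor : (⟨a, ma⟩ : algebraicClosure k⟮t⟯ Ω) ≠ 0 ∨ (⟨b, mb⟩ : algebraicClosure k⟮t⟯ Ω) ≠ 0 := by
    by_contra hc
    push Not at hc
    exact hnc' ⟨⟨0, by rw [map_zero, hc.1]⟩, ⟨0, by rw [map_zero, hc.2]⟩⟩
  have hz1 : NCyc (algebraMap (algebraicClosure k⟮t⟯ Ω) Ω ⟨a, ma⟩)
      (algebraMap (algebraicClosure k⟮t⟯ Ω) Ω ⟨b, mb⟩) n (algebraMap k Ω l) z := hz
  have h1 : ∀ i, ∃ w : algebraicClosure k⟮t⟯ Ω, algebraMap (algebraicClosure k⟮t⟯ Ω) Ω w = z i :=
    fun i => mem_range_of_alg (alg_of_cyc hz1 hab' hor i)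
  choose z' hz' using h1
  refine ⟨algebraicClosure k⟮t⟯ Ω, inferInstance, inferInstance, hcl,
    IsScalarTower.toAlgHom k (algebraicClosure k⟮t⟯ Ω) Ω, ⟨a, ma⟩, ⟨b, mb⟩, td1 t, rfl, rfl,
    z', NCyc.comap' (algebraMap (algebraicClosure k⟮t⟯ Ω) Ω) ?_, ?_⟩
  · rw [funext hz', ← IsScalarTower.algebraMap_apply]
    exact hz1
  · intro i j h0
    exact hzx i j (by rw [← hz', ← hz', h0])

/-- elements of a field of transcendence degree one are algebraic over any transcendental
element -/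
theorem alg_over {k E : Type} [Field k] [Field E] [Algebra k E] (hTD : TD1 k E) {u : E}
    (hu : Transcendental k u) (y : E) : IsAlgebraic (Algebra.adjoin k {u}) y := by
  by_contra hy
  have h1 : AlgebraicIndependent k (fun _ : Unit => u) :=
    algebraicIndependent_unique_type_iff.2 hu
  have h2 : Transcendental (Algebra.adjoin k (Set.range (fun _ : Unit => u))) y := by
    rw [Set.range_const]
    exact hy
  have h3 := (h1.option_iff_transcendental y).2 h2
  apply hTD u y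
  let e : Fin 2 → Option Unit := ![some (), none]
  have he : Function.Injective e := by
    intro i j hij
    fin_cases i <;> fin_cases j <;> simp_all [e]
  have h4 := h3.comp e he
  convert h4 using 1
  funext i
  fin_cases i <;> rfl

/-- valuation ring centred at a given prime -/
theorem exists_centre {R E : Type} [CommRing R] [Field E] (f : R →+* E) (p : Ideal R)
    [hp : p.IsPrime] (hle : RingHom.ker f ≤ p) :
    ∃ B : ValuationSubring E, (∀ x, B.valuation (f x) ≤ 1) ∧
      ∀ x, B.valuation (f x) < 1 ↔ x ∈ p := by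
  have hu : ∀ y : p.primeCompl, IsUnit (f y) := by
    rintro ⟨y, hy⟩
    rw [isUnit_iff_ne_zero]
    intro h0
    exact hy (hle h0)
  let g : Localization.AtPrime p →+* E := IsLocalization.lift hu
  have hg : ∀ x, g (algebraMap R _ x) = f x := fun x => IsLocalization.lift_eq hu x
  obtain ⟨B, hB, hloc⟩ := IsLocalRing.exists_factor_valuationRing g
  refine ⟨B, fun x => ?_, fun x => ?_⟩
  · rw [ValuationSubring.valuation_le_one_iff, ← hg]
    exact hB _
  · have hx : f x ∈ B := by rw [← hg]; exact hB _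
    have h1 : IsUnit (algebraMap R (Localization.AtPrime p) x) ↔ x ∉ p :=
      IsLocalization.AtPrime.isUnit_to_map_iff _ p x
    have h2 : IsUnit (algebraMap R (Localization.AtPrime p) x) ↔ B.valuation (f x) = 1 := by
      have h3 := hloc
      constructor
      · intro h
        have := h.map (g.codRestrict B.toSubring hB)
        have h4 := (B.valuation_eq_one_iff ((g.codRestrict B.toSubring hB) (algebraMap R _ x))).1 this
        rw [← hg]
        exact h4
      · intro h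
        apply hloc.map_nonunit
        apply (B.valuation_eq_one_iff ((g.codRestrict B.toSubring hB) (algebraMap R _ x))).2
        rw [← hg] at h
        exact h
    have h5 : B.valuation (f x) ≤ 1 := (B.valuation_le_one_iff _).2 hx
    constructor
    · intro h
      by_contra hc
      exact absurd (h2.1 (h1.2 hc)) h.ne
    · intro h
      refine lt_of_le_of_ne h5 fun h0 => ?_
      exact (h1.1 (h2.2 h0)) h

/-- a ring homomorphism from a field of transcendence degree one -/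
theorem exists_lift {k E M : Type} [Field k] [Field E] [Field M] [Algebra k E] [Algebra k M]
    [IsAlgClosed M] (hTD : TD1 k E) {R : Type} [CommRing R] [Algebra k R] (f : R →ₐ[k] E)
    (g : R →ₐ[k] M) (hker : ∀ x, f x = 0 ↔ g x = 0) (hu : ∃ x, Transcendental k (f x)) :
    ∃ θ : E →ₐ[k] M, ∀ x, θ (f x) = g x := by
  obtain ⟨u, hu⟩ := hu
  let S := f.range
  -- the homomorphism on the image
  let l1 : (R ⧸ RingHom.ker f) →ₐ[k] M :=
    Ideal.Quotient.liftₐ (RingHom.ker f) g (fun x hx => (hker x).1 hx)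
  let h : S →ₐ[k] M := l1.comp (Ideal.quotientKerEquivRange f).symm.toAlgHom
  have hh : ∀ x, h ⟨f x, ⟨x, rfl⟩⟩ = g x := by
    intro x
    have e : (Ideal.quotientKerEquivRange f).symm ⟨f x, ⟨x, rfl⟩⟩
        = Ideal.Quotient.mk (RingHom.ker f) x := by
      rw [AlgEquiv.symm_apply_eq]
      rfl
    show l1 ((Ideal.quotientKerEquivRange f).symm _) = _
    rw [e]
    rfl
  have hinj : Function.Injective h := by
    rw [injective_iff_map_eq_zero]
    rintro ⟨_, ⟨x, rfl⟩⟩ hx
    have : g x = 0 := by rw [← hh]; exact hx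
    apply Subtype.ext
    exact (hker x).2 this
  let _ : Algebra S M := h.toRingHom.toAlgebra
  have i1 : Algebra.IsAlgebraic S E := ⟨fun y =>
    (alg_over hTD hu y).tower_top_of_subalgebra_le (by
      rw [Algebra.adjoin_le_iff, Set.singleton_subset_iff]
      exact ⟨u, rfl⟩)⟩
  have i2 : FaithfulSMul S M := (faithfulSMul_iff_algebraMap_injective _ _).2 hinj
  let θ : E →ₐ[S] M := IsAlgClosed.lift
  have hθ : ∀ x, θ (f x) = g x := by
    intro x
    rw [← hh]
    exact θ.commutes ⟨f x, ⟨x, rfl⟩⟩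
  refine ⟨⟨θ.toRingHom, fun r => ?_⟩, hθ⟩
  have := hθ (algebraMap k R r)
  rwa [f.commutes, g.commutes] at this

end Alg

open MvPolynomial in
theorem closure_core {n : ℕ} {lam : ℂ} {D : Set (ℂ × ℂ)}
    (hD : ∀ x ∈ D, x.1 * x.2 ≠ 1 ∧ ¬ QC n lam x.1 x.2 ∧
      ∀ P : MvPolynomial (Fin 2) ℂ,
        (∀ a b, a * b ≠ 1 → QC n lam a b → MvPolynomial.eval ![sg1 a b, sg2 a b] P = 0) →
        MvPolynomial.eval ![sg1 x.1 x.2, sg2 x.1 x.2] P = 0) : D.Finite := by
  by_contra hinf
  rw [Set.not_finite] at hinf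
  have _ : IsAlgClosed KK := isAlgClosed_KK
  let e := hinf.natEmbedding
  let a : ℕ → ℂ := fun j => (e j).1.1
  let b : ℕ → ℂ := fun j => (e j).1.2
  have he : ∀ j, a j * b j ≠ 1 ∧ ¬ QC n lam (a j) (b j) ∧
      ∀ P : MvPolynomial (Fin 2) ℂ,
        (∀ a b, a * b ≠ 1 → QC n lam a b → MvPolynomial.eval ![sg1 a b, sg2 a b] P = 0) →
        MvPolynomial.eval ![sg1 (a j) (b j), sg2 (a j) (b j)] P = 0 := fun j => hD _ (e j).2
  have hinj : Function.Injective fun j => (a j, b j) :=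
    fun i j hij => e.injective (Subtype.ext hij)
  -- the generic point of the exceptional set
  have hab : cls a * cls b ≠ 1 := by
    rw [← map_mul, ← map_one cls]
    exact cls_ne fun j => (he j).1
  obtain ⟨hs1, hs2⟩ := psi_sg cls (a := a) (b := b) fun j => (he j).1
  let φ1 : MvPolynomial (Fin 2) ℂ →ₐ[ℂ] KK := aeval ![sg1 (cls a) (cls b), sg2 (cls a) (cls b)]
  have hφ1 : ∀ P, cls (fun j => eval ![sg1 (a j) (b j), sg2 (a j) (b j)] P) = φ1 P := fun P =>
    psi_eval cls (fun _ => rfl) (fun j => ![sg1 (a j) (b j), sg2 (a j) (b j)]) hs1 hs2 P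
  have hφX0 : φ1 (X 0) = sg1 (cls a) (cls b) := by simp [φ1]
  have hφX1 : φ1 (X 1) = sg2 (cls a) (cls b) := by simp [φ1]
  have hnonconst : ¬ ∃ α β : ℂ, φ1 (X 0) = algebraMap ℂ KK α ∧ φ1 (X 1) = algebraMap ℂ KK β := by
    rintro ⟨α, β, hα, hβ⟩
    rw [hφX0] at hα
    rw [hφX1] at hβ
    obtain ⟨r1, r2⟩ := sg_root hab
    rw [hα, hβ] at r1 r2
    have key : ∀ x : KK, x ^ 3 - algebraMap ℂ KK α * x ^ 2 + algebraMap ℂ KK β * x
        - (algebraMap ℂ KK α - 2) = 0 → x ∈ Set.range (algebraMap ℂ KK) := by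
      intro x hx
      apply mem_range_of_alg
      refine ⟨Polynomial.X ^ 3 - Polynomial.C α * Polynomial.X ^ 2
        + Polynomial.C β * Polynomial.X - Polynomial.C (α - 2), ?_, ?_⟩
      · intro h0
        have := congrArg (fun r => Polynomial.coeff r 3) h0
        simp at this
      · have h2 : (algebraMap ℂ KK) 2 = 2 := map_ofNat _ 2
        simpa [h2] using hx
    obtain ⟨x, hx⟩ := key _ r1
    obtain ⟨y, hy⟩ := key _ r2
    exact not_both_const hinj ⟨x, y, hx.symm, hy.symm⟩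
  -- prime ideals
  let p : Ideal (MvPolynomial (Fin 2) ℂ) := RingHom.ker φ1
  have hp : p.IsPrime := RingHom.ker_isPrime φ1
  let T := {x : ℂ × ℂ // x.1 * x.2 ≠ 1 ∧ QC n lam x.1 x.2}
  let s : T → Fin 2 → ℂ := fun t => ![sg1 t.1.1 t.1.2, sg2 t.1.1 t.1.2]
  let I : Ideal (MvPolynomial (Fin 2) ℂ) := RingHom.ker (RingHom.pi fun t => eval (s t))
  have hI : ∀ P, P ∈ I ↔ ∀ t, eval (s t) P = 0 := by
    intro P
    rw [RingHom.mem_ker]
    exact funext_iff
  have hIp : I ≤ p := by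
    intro P hP
    show φ1 P = 0
    rw [← hφ1]
    have : (fun j => eval ![sg1 (a j) (b j), sg2 (a j) (b j)] P) = 0 := by
      funext j
      exact (he j).2.2 P fun a' b' h1 h2 => (hI P).1 hP ⟨(a', b'), h1, h2⟩
    rw [this, map_zero]
  obtain ⟨q, hq, hqp⟩ := Ideal.exists_minimalPrimes_le hIp
  obtain ⟨K2, _, ψ, hψ⟩ := exists_generic_field s q I hI hq
  let Ω := AlgebraicClosure K2
  let ψ' : (T → ℂ) →+* Ω := (algebraMap K2 Ω).comp ψ
  have hψ' : ∀ P, ψ' (fun t => eval (s t) P) = 0 ↔ P ∈ q := by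
    intro P
    rw [← hψ]
    exact map_eq_zero (algebraMap K2 Ω)
  let _ : Algebra ℂ Ω := (ψ'.comp (Pi.constRingHom T ℂ)).toAlgebra
  let a2 : Ω := ψ' fun t => t.1.1
  let b2 : Ω := ψ' fun t => t.1.2
  have hab2 : a2 * b2 ≠ 1 := by
    show ψ' _ * ψ' _ ≠ 1
    rw [← map_mul, ← map_one ψ']
    exact psi_ne ψ' fun t => t.2.1
  obtain ⟨hs3, hs4⟩ := psi_sg ψ' (a := fun t => t.1.1) (b := fun t => t.1.2) fun t => t.2.1
  have hQ2 : QC n (algebraMap ℂ Ω lam) a2 b2 :=
    psi_QC ψ' (a := fun t => t.1.1) (b := fun t => t.1.2) fun t => t.2.2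
  let φ2 : MvPolynomial (Fin 2) ℂ →ₐ[ℂ] Ω := aeval ![sg1 a2 b2, sg2 a2 b2]
  have hφ2 : ∀ P, φ2 P = 0 ↔ P ∈ q := by
    intro P
    rw [← hψ', psi_eval ψ' (fun _ => rfl) s hs3 hs4 P]
  -- not constant
  have hnc2 : ¬ (a2 ∈ Set.range (algebraMap ℂ Ω) ∧ b2 ∈ Set.range (algebraMap ℂ Ω)) := by
    rintro ⟨⟨α, hα⟩, ⟨β, hβ⟩⟩
    apply hnonconst
    have h1 : φ2 (X 0) = algebraMap ℂ Ω (sg1 α β) := by
      simp only [φ2, aeval_X, Matrix.cons_val_zero]
      rw [← hα, ← hβ, sg1_map]
    have h2 : φ2 (X 1) = algebraMap ℂ Ω (sg2 α β) := by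
      simp only [φ2, aeval_X, Matrix.cons_val_one]
      rw [← hα, ← hβ, sg2_map]
      rfl
    refine ⟨sg1 α β, sg2 α β, ?_, ?_⟩
    · have h3 : X 0 - C (sg1 α β) ∈ q := by
        rw [← hφ2, map_sub, h1]
        simp [algebraMap_eq]
      have h4 : φ1 (X 0 - C (sg1 α β)) = 0 := hqp h3
      rw [map_sub, sub_eq_zero] at h4
      rw [h4]
      simp
    · have h3 : X 1 - C (sg2 α β) ∈ q := by
        rw [← hφ2, map_sub, h2]
        simp [algebraMap_eq]
      have h4 : φ1 (X 1 - C (sg2 α β)) = 0 := hqp h3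
      rw [map_sub, sub_eq_zero] at h4
      rw [h4]
      simp
  obtain ⟨E, _, _, _, ι, a', b', hTD, ha', hb', hQ'⟩ := single_field hQ2 hab2 hnc2
  have hab' : a' * b' ≠ 1 := by
    intro h0
    apply hab2
    rw [← ha', ← hb', ← map_mul, h0, map_one]
  let φ3 : MvPolynomial (Fin 2) ℂ →ₐ[ℂ] E := aeval ![sg1 a' b', sg2 a' b']
  have hφ3 : ∀ P, φ3 P = 0 ↔ P ∈ q := by
    intro P
    rw [← hφ2]
    have : φ2 = ι.comp φ3 := by
      apply algHom_ext
      intro i
      fin_cases i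
      · have := sg1_map (ι : E →+* Ω) a' b'
        simp only [RingHom.coe_coe] at this
        simp [φ2, φ3, ← ha', ← hb', this]
      · have := sg2_map (ι : E →+* Ω) a' b'
        simp only [RingHom.coe_coe] at this
        simp [φ2, φ3, ← ha', ← hb', this]
    rw [this]
    exact (map_eq_zero ι).symm
  -- the prime ideals agree
  have hqp' : p ≤ q := by
    intro P hP
    by_contra hPq
    have hker : RingHom.ker (φ3 : MvPolynomial (Fin 2) ℂ →+* E) ≤ p := fun x hx =>
      hqp ((hφ3 x).1 hx)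
    obtain ⟨B, hB1, hB2⟩ := exists_centre (φ3 : MvPolynomial (Fin 2) ℂ →+* E) p hker
    have hBk : ∀ α : ℂ, algebraMap ℂ E α ∈ B := by
      intro α
      rw [← B.valuation_le_one_iff]
      have := hB1 (C α)
      simpa using this
    have hBne : B ≠ ⊤ := by
      intro h0
      have h1 := (hB2 P).2 hP
      have h2 : φ3 P ≠ 0 := fun h => hPq ((hφ3 P).1 h)
      rw [RingHom.coe_coe, B1_lt_iff B h2] at h1
      exact h1 (h0 ▸ trivial)
    have hPl := isPl_of hTD B hBk hBne
    apply hnonconst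
    have key : ∀ i, ∃ α : ℂ, φ1 (X i) = algebraMap ℂ KK α := by
      intro i
      obtain ⟨α, hα⟩ := hPl.res _ (hB1 (X i))
      refine ⟨α, ?_⟩
      have h1 : X i - C α ∈ p := by
        rw [← hB2, map_sub]
        simpa using hα
      have h2 : φ1 (X i - C α) = 0 := h1
      rw [map_sub, sub_eq_zero] at h2
      rw [h2]
      simp
    obtain ⟨α, hα⟩ := key 0
    obtain ⟨β, hβ⟩ := key 1
    exact ⟨α, β, hα, hβ⟩
  have hker : ∀ P, φ3 P = 0 ↔ φ1 P = 0 := fun P =>
    ⟨fun h => hqp ((hφ3 P).1 h), fun h => (hφ3 P).2 (hqp' h)⟩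
  have hu : ∃ P, Transcendental ℂ (φ3 P) := by
    by_contra hc
    push Not at hc
    apply hnonconst
    have key : ∀ i, ∃ α : ℂ, φ1 (X i) = algebraMap ℂ KK α := by
      intro i
      obtain ⟨α, hα⟩ := mem_range_of_alg (not_not.1 (hc (X i)))
      refine ⟨α, ?_⟩
      have h1 : φ3 (X i - C α) = 0 := by
        rw [map_sub, ← hα]
        simp [algebraMap_eq]
      have h2 := (hker _).1 h1
      rw [map_sub, sub_eq_zero] at h2
      rw [h2]
      simp
    obtain ⟨α, hα⟩ := key 0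
    obtain ⟨β, hβ⟩ := key 1
    exact ⟨α, β, hα, hβ⟩
  obtain ⟨θ, hθ⟩ := exists_lift hTD φ3 φ1 hker hu
  -- transport the cycle
  obtain ⟨z, hz, hzx⟩ := hQ'
  have hz1 := NCyc.map' (θ : E →+* KK) hz
  have hQ1 : QC n (algebraMap ℂ KK lam) (θ a') (θ b') := by
    refine ⟨fun i => θ (z i), ?_, ?_⟩
    · rw [← θ.commutes]
      exact hz1
    · intro i j hij
      exact hzx i j (θ.toRingHom.injective hij)
  have hab1 : θ a' * θ b' ≠ 1 := by
    intro h0
    apply hab'
    rw [← map_mul, ← map_one θ] at h0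
    exact θ.toRingHom.injective h0
  have hσ1 : sg1 (θ a') (θ b') = sg1 (cls a) (cls b) := by
    rw [← hφX0, ← hθ]
    have := sg1_map (θ : E →+* KK) a' b'
    simp only [RingHom.coe_coe] at this
    simp [φ3, this]
  have hσ2 : sg2 (θ a') (θ b') = sg2 (cls a) (cls b) := by
    rw [← hφX1, ← hθ]
    have := sg2_map (θ : E →+* KK) a' b'
    simp only [RingHom.coe_coe] at this
    simp [φ3, this]
  obtain ⟨j, hj⟩ := QC.of_cls (hQ1.transfer hab1 hab hσ1 hσ2)
  exact (he j).2.1 hj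

end Pool.Agent.helper56.P3
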