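import Pool.Agent.helper56.Per.Defs

/-!
# The curves `Per_n(lam)` and `Per*_n(lam)` in the moduli space of quadratic rational maps
-/

namespace Pool.Agent.helper56.Per

/-- the coefficients of `f` -/
def QMap.coeffs (f : QMap) : Fin 6 → ℂ := ![f.a0, f.a1, f.a2, f.b0, f.b1, f.b2]

/-- Zariski closed subsets of `𝓜₂`: the sets of classes whose preimage in the space of quadratic
rational maps is the set of common zeros of a family of polynomials in the six coefficients
(i.e. the quotient topology of the Zariski topology). -/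
def IsZClosed (C : Set M2) : Prop :=
  ∃ I : Set (MvPolynomial (Fin 6) ℂ), ∀ f : QMap,
    (Quot.mk _ f ∈ C ↔ ∀ P ∈ I, MvPolynomial.eval f.coeffs P = 0)

/-- the Zariski closure of a subset of `𝓜₂` -/
def zclosure (S : Set M2) : Set M2 := {c | ∀ C : Set M2, IsZClosed C → S ⊆ C → c ∈ C}

/-- the set of classes having a cycle of exact period `n` with multiplier `lam` -/
def perSet (n : ℕ) (lam : ℂ) : Set M2 :=
  {c | ∃ (f : QMap) (z : ℂ), Quot.mk _ f = c ∧ IsPer f n lam z}

/-- the curve `Per*_n(lam)` -/
def PerStar (n : ℕ) (lam : ℂ) : Set M2 := zclosure (perSet n lam)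

/-- `Piece n lam k mu`: the cycles of exact period `k` and multiplier `mu` are formal `n`-cycles of
multiplier `lam`. -/
def Piece (n : ℕ) (lam : ℂ) (k : ℕ) (mu : ℂ) : Prop :=
  (k = n ∧ mu = lam) ∨ (lam = 1 ∧ k ∣ n ∧ k < n ∧ IsPrimitiveRoot mu (n / k))

/-- the curve `Per_n(lam)`: the closure of the set of classes having a formal `n`-cycle of
multiplier `lam` -/
def PerCurve (n : ℕ) (lam : ℂ) : Set M2 :=
  zclosure {c | ∃ k mu, Piece n lam k mu ∧ c ∈ perSet k mu}

end Pool.Agent.helper56.Per
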