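import Pool.Agent.helper56.P3.Defs2
import Pool.Agent.helper56.P3.PerDefs
import Pool.Agent.helper56.Per.Final

/-!
# P3-C: definitions for the closure version
-/

namespace Pool.Agent.helper56.P3

open Finset Pool.Agent.helper56.Per

/-- sum of the fixed point multipliers of `z ↦ z (z + a) / (b z + 1)` -/
noncomputable def sg1 {K : Type*} [Field K] (a b : K) : K := a + b + (2 - a - b) / (1 - a * b)

/-- second elementary symmetric function of the fixed point multipliers -/
noncomputable def sg2 {K : Type*} [Field K] (a b : K) : K :=
  a * b + (a + b) * ((2 - a - b) / (1 - a * b))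

/-- there is a cycle of exact period `n` with multiplier `L` -/
def QC {K : Type*} [Field K] (n : ℕ) (L a b : K) : Prop :=
  ∃ z : ℕ → K, NCyc a b n L z ∧ Exact n z

end Pool.Agent.helper56.P3
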