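import Pool.Agent.helper56.P3.Defs

/-!
# P3: the generic point, with exact periods
-/

namespace Pool.Agent.helper56.P3

open Finset Filter Pool.Agent.helper56.Per

theorem IsPer.exact {f : QMap} {n : ℕ} {lam z : ℂ} (h : IsPer f n lam z) :
    Exact n (fun i => f.toFun^[i] z) := by
  intro i j hij
  have hn := h.2.2.1
  have hpos := h.1
  beta_reduce at hij
  rw [← Function.iterate_mod_minimalPeriod_eq (n := i),
    ← Function.iterate_mod_minimalPeriod_eq (n := j)] at hij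
  rw [Function.iterate_eq_iterate_iff_of_lt_minimalPeriod] at hij
  · rwa [hn] at hij
  · exact Nat.mod_lt _ (by rw [hn]; exact hpos)
  · exact Nat.mod_lt _ (by rw [hn]; exact hpos)

theorem HasN.exact {f : QMap} {a b p q r t : ℂ} (h : HasN f a b p q r t) {n : ℕ} {lam z : ℂ}
    (hz : IsPer f n lam z) (hY : ∀ i, p - r * f.toFun^[i] z ≠ 0) :
    Exact n (fun i => (t * f.toFun^[i] z - q) / (p - r * f.toFun^[i] z)) := by
  intro i j hij
  exact IsPer.exact hz i j (h.inj (hY i) (hY j) hij)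

theorem Exact.cls {n : ℕ} {z : ℕ → ℕ → ℂ} (h : ∀ j, Exact n (z j)) :
    Exact n (fun i => Per.cls (fun j => z j i)) := by
  intro i i' hi
  by_contra hne
  exact cls_ne (fun j h0 => hne (h j i i' h0)) hi

/-- two cycles with exact periods -/
def QE2 {K : Type*} [Field K] (n m : ℕ) (L L' : K) (a b : K) : Prop :=
  ∃ z y : ℕ → K, NCyc a b n L z ∧ NCyc a b m L' y ∧ Exact n z ∧ Exact m y ∧ ∀ i j, z i ≠ y j

variable {n m : ℕ} {lam lam' : ℂ}

theorem common_infinite_two_exact (hn : 2 ≤ n) (hm : 2 ≤ m)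
    (h : (common n m lam lam').Infinite) :
    {x : ℂ × ℂ | x.1 * x.2 ≠ 1 ∧ QE2 n m lam lam' x.1 x.2}.Infinite := by
  apply infinite_of_image h
  rintro c ⟨f, z, y, rfl, hz, hy, hd⟩
  obtain ⟨w1, w2, d, hw, hw1, hw2⟩ := exists_fixed f
  rcases second_fixed f hw hw1 hw2 with ⟨u1, u2, c, hdet, hu1, hu2⟩ | hS
  · left
    obtain ⟨a, b, hN⟩ := hasN_of_fixed f hdet hu1 hu2 hw1 hw2
    obtain ⟨hz1, hz2⟩ := hN.ncyc hz hn
    obtain ⟨hy1, hy2⟩ := hN.ncyc hy hm
    refine ⟨(a, b), ⟨hN.ab, _, _, hz1, hy1, HasN.exact hN hz hz2, HasN.exact hN hy hy2,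
      fun i j h0 => ?_⟩, Phi_eq hN⟩
    exact hz.disjoint hy hd i j (hN.inj (hz2 i) (hy2 j) h0)
  · right
    exact hS

theorem generic_two_exact (hn : 2 ≤ n) (hm : 2 ≤ m) (h : (common n m lam lam').Infinite) :
    ∃ a b : KK, a * b ≠ 1 ∧ QE2 n m (algebraMap ℂ KK lam) (algebraMap ℂ KK lam') a b ∧
      ¬ (a ∈ Set.range (algebraMap ℂ KK) ∧ b ∈ Set.range (algebraMap ℂ KK)) := by
  have h' := common_infinite_two_exact hn hm h
  let e := h'.natEmbedding
  have he : ∀ j, (e j).1.1 * (e j).1.2 ≠ 1 ∧ QE2 n m lam lam' (e j).1.1 (e j).1.2 :=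
    fun j => (e j).2
  choose h1 z y hz hy hzx hyx hne using he
  refine ⟨cls fun j => (e j).1.1, cls fun j => (e j).1.2, ?_,
    ⟨_, _, NCyc.cls hz, NCyc.cls hy, Exact.cls hzx, Exact.cls hyx,
      fun i k => cls_ne fun j => hne j i k⟩, ?_⟩
  · rw [← map_mul, ← map_one cls]
    exact cls_ne h1
  · rintro ⟨⟨α, hα⟩, ⟨β, hβ⟩⟩
    exact not_both_const (a := fun j => (e j).1.1) (b := fun j => (e j).1.2)
      (fun i j hij => e.injective (Subtype.ext hij)) ⟨α, β, hα.symm, hβ.symm⟩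

theorem common_infinite_one_exact (hm : 2 ≤ m) (h : (common 1 m lam lam').Infinite) :
    {x : ℂ × ℂ | x.1 = lam ∧ x.1 * x.2 ≠ 1 ∧
      ∃ y : ℕ → ℂ, NCyc x.1 x.2 m lam' y ∧ Exact m y}.Infinite := by
  apply infinite_of_image h
  rintro c ⟨f, z, y, rfl, hz, hy, hd⟩
  obtain ⟨hw1, hw2, hd0, hlam⟩ := hz.fixed
  rcases second_fixed f (w1 := z) (w2 := 1) (by simp) hw1 hw2 with
    ⟨u1, u2, c, hdet, hu1, hu2⟩ | hS
  · left
    obtain ⟨a, b, hN⟩ := hasN_of_fixed f hdet hu1 hu2 hw1 hw2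
    obtain ⟨hy1, hy2⟩ := hN.ncyc hy hm
    refine ⟨(a, b), ⟨?_, hN.ab, _, hy1, HasN.exact hN hy hy2⟩, Phi_eq hN⟩
    have e : f.B (z / f.den z) (1 / f.den z) (z / f.den z) (1 / f.den z) = a := by
      simpa using hN.B 0 1
    show a = lam
    rw [hlam, ← e, B_scale]
  · right
    exact hS

theorem generic_one_exact (hm : 2 ≤ m) (h : (common 1 m lam lam').Infinite) :
    ∃ b : KK, b ∉ Set.range (algebraMap ℂ KK) ∧ ∃ y : ℕ → KK,
      NCyc (algebraMap ℂ KK lam) b m (algebraMap ℂ KK lam') y ∧ Exact m y := by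
  have h' := common_infinite_one_exact hm h
  let e := h'.natEmbedding
  have he : ∀ j, (e j).1.1 = lam ∧ (e j).1.1 * (e j).1.2 ≠ 1 ∧
      ∃ y : ℕ → ℂ, NCyc (e j).1.1 (e j).1.2 m lam' y ∧ Exact m y :=
    fun j => (e j).2
  choose h0 h1 y hy hyx using he
  have hc : cls (fun j => (e j).1.1) = algebraMap ℂ KK lam := by
    rw [algebraMap_KK, ← cls_const]
    congr 1
    funext j
    exact h0 j
  refine ⟨cls fun j => (e j).1.2, ?_, fun i => cls fun j => y j i, ?_, Exact.cls hyx⟩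
  · rintro ⟨β, hβ⟩
    exact not_both_const (a := fun j => (e j).1.1) (b := fun j => (e j).1.2)
      (fun i j hij => e.injective (Subtype.ext hij)) ⟨lam, β, hc, hβ.symm⟩
  · rw [← hc]
    exact NCyc.cls hy

end Pool.Agent.helper56.P3
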