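import Pool.Agent.helper36.P3.Places
import Pool.Agent.helper69.P3.C1
import Pool.Agent.helper8.P3.Dom
import Pool.Agent.helper95.P3.ClassifyA
import Pool.Agent.helper99.P3.RootOrder
import Pool.Agent.helper56.P3.Util
import Pool.Agent.helper56.P3.Chain
import Pool.Agent.helper80.P3.TwoTwo

/-!
# P3-H4a: maximality of the mixed end
-/

namespace Pool.Agent.helper56.P3

open Finset Pool.Agent.helper56.Per

section

variable {k K : Type*} [Field k] [Field K] [Algebra k K] [IsAlgClosed k] [IsAlgClosed K]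
  [CharZero k] [Algebra.IsAlgebraic ℚ k] {n m : ℕ} {lam lam' : k} {a b x3 c : K} {W W' : ℕ → K}
  {O : ValuationSubring k} {g : K} {ν0 : ValuationSubring K} {q0 L : ℕ}

omit [IsAlgClosed k] [IsAlgClosed K] [CharZero k] [Algebra.IsAlgebraic ℚ k] in
/-- values and residues at a place with rotation order `q` -/
theorem rot_residue {P : ValuationSubring K} (hP : IsPl k P) (hc : Ctx P.valuation b c) {q : ℕ}
    (hr : Rot P.valuation b c q) : ∃ ζ : k, IsPrimitiveRoot ζ q ∧
      ∀ j, P.valuation ((b ^ j - 1) - algebraMap k K (ζ ^ j - 1)) < 1 := by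
  obtain ⟨ζ, hζ⟩ := hP.res b hc.vb.le
  have hζ1 : P.valuation (algebraMap k K ζ) = 1 := by
    rw [← hc.vb]
    symm
    apply v_eq_of_sub_lt (lt_of_lt_of_eq hζ ?_)
    by_contra h0
    have hz : ζ = 0 := by
      by_contra hz
      exact h0 (hP.cst ζ hz).symm
    rw [hz, map_zero, sub_zero, hc.vb] at hζ
    exact lt_irrefl _ hζ
  have hpow : ∀ j, P.valuation (b ^ j - algebraMap k K ζ ^ j) < 1 := by
    intro j
    induction j with
    | zero => simp
    | succ j ih =>
      have e : b ^ (j + 1) - algebraMap k K ζ ^ (j + 1)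
          = b ^ j * (b - algebraMap k K ζ) + (b ^ j - algebraMap k K ζ ^ j) * algebraMap k K ζ := by
        ring
      rw [e]
      apply Valuation.map_add_lt
      · rw [map_mul, map_pow, hc.vb, one_pow, one_mul]; exact hζ
      · rw [map_mul, hζ1, mul_one]; exact ih
  have hres : ∀ j, P.valuation ((b ^ j - 1) - algebraMap k K (ζ ^ j - 1)) < 1 := by
    intro j
    rw [map_sub (algebraMap k K), map_pow (algebraMap k K), map_one (algebraMap k K),
      sub_sub_sub_cancel_right]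
    exact hpow j
  refine ⟨ζ, ?_, hres⟩
  have h1 : ζ ^ q = 1 := by
    by_contra hne
    have h2 := hP.cst _ (sub_ne_zero.2 hne)
    have h3 : P.valuation (b ^ q - 1) < 1 := hr.le.trans_lt hc.vc
    have h4 := v_eq_one_of_sub (hres q) h2
    rw [h4] at h3
    exact lt_irrefl _ h3
  refine IsPrimitiveRoot.mk_of_lt ζ (by have := hr.two_le; omega) h1 fun l hl hlq h2 => ?_
  have h3 := hr.one l hl hlq
  have h4 := hres l
  rw [h2, sub_self, map_zero, sub_zero, h3] at h4
  exact lt_irrefl _ h4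

theorem V4 (G : Glob n m lam lam' a b x3 c W W') (h2 : O.valuation 2 < 1) (hB : Base O g ν0)
    (hmax : ∀ P' q', Mixed k P' b c W W' q' → q' ≤ q0 * 2 ^ L)
    (hD : ∀ ν, Dom O g ν0 ν → DCtx ν.valuation b c q0)
    (hT : ∀ ν, Dom O g ν0 ν → 1 < ν.valuation (TT b c (q0 * 2 ^ L)))
    (hZ : ∀ ν, Dom O g ν0 ν → ∀ i, ¬ ν.valuation (W i * TT b c (q0 * 2 ^ L)) < 1)
    {j0 : ℕ} (hY : ∀ ν, Dom O g ν0 ν → ν.valuation (W' j0 * TT b c (q0 * 2 ^ L)) < 1)
    {P : ValuationSubring K} (hP : IsDel O g ν0 P) :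
    P.valuation (TT b c (q0 * 2 ^ L)) ≤ 1 := by
  by_contra hcon
  rw [not_le] at hcon
  have hν : Dom O g ν0 (comp P hP.pl O) := IsDel.dom hB hP
  obtain ⟨ν, hνd⟩ : ∃ ν, ν = comp P hP.pl O := ⟨_, rfl⟩
  rw [← hνd] at hν
  have hle : ν ≤ P := hνd ▸ comp_le hP.pl O
  have hlt : ∀ {x : K}, P.valuation x < 1 → ν.valuation x < 1 := fun h =>
    hνd ▸ comp_lt_of_lt hP.pl O h
  have hgt : ∀ {x : K}, 1 < P.valuation x → 1 < ν.valuation x := fun h =>
    hνd ▸ comp_gt_of_gt hP.pl O h
  have hle1 : ∀ {x : K}, ν.valuation x ≤ 1 → P.valuation x ≤ 1 := by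
    intro x hx
    by_contra h
    rw [not_le] at h
    exact absurd hx (not_le.2 (hgt h))
  have D := hD ν hν
  have cz : CharZ P.valuation := hP.pl.charZ
  have hq0 : 0 < q0 := D.odd.pos
  have hQ : 0 < q0 * 2 ^ L := by positivity
  have hb0 : b ≠ 0 := ne_zero_of_v_one D.vb
  have hvb : P.valuation b = 1 := by
    refine le_antisymm (hle1 D.vb.le) ?_
    have h1 : ν.valuation b⁻¹ ≤ 1 := by rw [map_inv₀, D.vb, inv_one]
    have h3 := hle1 h1
    rw [map_inv₀, inv_le_one₀ (zero_lt_iff.2 ((P.valuation.ne_zero_iff).2 hb0))] at h3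
    exact h3
  have hc0 : P.valuation c ≠ 0 := (P.valuation.ne_zero_iff).2 D.c0
  have hTc := v_TT (v := P.valuation) hvb D.c0 (q0 * 2 ^ L)
  have hbj : ∀ j, P.valuation (b ^ j - 1) ≤ 1 := fun j => by
    refine (P.valuation.map_sub _ _).trans ?_
    rw [map_pow, hvb, one_pow, map_one, max_self]
  have hcpos : 0 < P.valuation c := zero_lt_iff.2 hc0
  have hcT : P.valuation c < P.valuation (b ^ (q0 * 2 ^ L) - 1) := by
    rw [← hTc]
    exact le_mul_of_one_lt' hcon hc0
  have hvc : P.valuation c < 1 := hcT.trans_le (hbj _)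
  -- `|c| < |b - 1|`
  have hbc : P.valuation c < P.valuation (b - 1) := by
    refine hcT.trans_le ?_
    have e : b ^ (q0 * 2 ^ L) - 1 = (∑ i ∈ range (q0 * 2 ^ L), b ^ i) * (b - 1) :=
      (geom_sum_mul b _).symm
    rw [e, map_mul]
    refine mul_le_of_le_one_left' ?_
    refine P.valuation.map_sum_le fun i _ => ?_
    rw [map_pow, hvb, one_pow]
  have hctx : Ctx P.valuation b c := ⟨hvb, hvc, D.c0, hbc⟩
  -- `W'` is of type II
  have hj0 : P.valuation (W' j0) < 1 := by
    by_contra h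
    rw [not_lt] at h
    have h1 : 1 < P.valuation (W' j0 * TT b c (q0 * 2 ^ L)) := by
      rw [map_mul]
      exact hcon.trans_le (le_mul_of_one_le_left' h)
    exact absurd (hY ν hν) (not_lt.2 (hgt h1).le)
  have hl : P.valuation (algebraMap k K lam) = 1 := hP.pl.cst _ G.l0
  have hl' : P.valuation (algebraMap k K lam') = 1 := hP.pl.cst _ G.l0'
  have hII' : TyII P.valuation W' := ⟨j0, hj0⟩
  obtain ⟨q, _, hr⟩ : ∃ q, q ≤ m ∧ Rot P.valuation b c q := by
    rcases classify P.valuation hctx cz G.hW' hl' with ⟨hO, _⟩ | ⟨q, hq, hr, _⟩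
    · exact absurd (hO j0) (not_lt.2 hj0.le)
    · exact ⟨q, hq, hr⟩
  -- the rotation order is `q0 2^L'`
  obtain ⟨ζ, hζ, hres⟩ := rot_residue hP.pl hctx hr
  obtain ⟨q1, L1, hq1, hqe, hr1, hr2⟩ := root_order O.valuation h2 (by have := hr.two_le; omega) hζ
  have hiff : ∀ j, ν.valuation (b ^ j - 1) < 1 ↔ O.valuation (ζ ^ j - 1) < 1 := fun j =>
    hνd ▸ comp_lt_iff hP.pl O (hres j)
  have hq01 : q1 = q0 := by
    apply Nat.dvd_antisymm
    · by_contra hnd
      have h3 := hr2 q0 hnd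
      exact absurd ((hiff q0).1 D.lt) (by rw [h3]; exact lt_irrefl _)
    · by_contra hnd
      have h3 := D.one q1 hnd
      exact absurd ((hiff q1).2 (hr1 q1 dvd_rfl)) (by rw [h3]; exact lt_irrefl _)
  subst hq01
  obtain ⟨t, ht⟩ := hP.pl.res _ (TT_le_of_rot hctx hr)
  obtain ⟨ε', hε', ⟨ℓ', _, hH'⟩, hnear', _⟩ := near_II hP.pl hctx hr G.hW' G.l0' ht hII'
  rcases classify P.valuation hctx cz G.hW hl with ⟨hO, hn⟩ | ⟨q', _, hr', hI | hII⟩
  · -- type O
    have hqn : q ∣ n := by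
      by_contra hnd
      have h3 := Rot.pow_one P.valuation hctx hr hnd
      rw [h3] at hn
      exact absurd hn (not_lt.2 hvc.le)
    have h3 := Rot.pow_dvd P.valuation hctx cz hr hqn G.hW.npos.ne'
    rw [h3, ← v_TT hvb D.c0 q] at hn
    have h4 : P.valuation (TT b c q) < 1 := by
      by_contra hge
      rw [not_lt] at hge
      exact absurd hn (not_lt.2 (le_mul_of_one_le_left' hge))
    have ht0 : t = 0 := by
      apply hP.pl.res_unique ht
      rwa [map_zero, sub_zero]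
    exact (hits_sign hε' hε' hH' hH').2 ht0
  · -- type I
    have hqq : q' = q := Rot.unique P.valuation hctx hr' hr
    subst hqq
    have hM : Mixed k P b c W W' q' := ⟨hP.pl, hctx, hr, hI, hII'⟩
    have h3 := hmax P q' hM
    have hdvd : q' ∣ q1 * 2 ^ L := by
      rw [hqe] at h3 ⊢
      have h4 : 2 ^ L1 ≤ 2 ^ L := Nat.le_of_mul_le_mul_left h3 hq0
      exact Nat.mul_dvd_mul_left _ (Nat.pow_dvd_pow 2 ((Nat.pow_le_pow_iff_right (by norm_num)).1 h4))
    have h4 := Rot.pow_dvd P.valuation hctx cz hr hdvd hQ.ne'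
    rw [h4] at hcT
    exact absurd hcT (not_lt.2 hr.le)
  · -- type II
    have hqq : q' = q := Rot.unique P.valuation hctx hr' hr
    subst hqq
    obtain ⟨ε, hε, ⟨ℓ, _, hH⟩, hnear, _⟩ := near_II hP.pl hctx hr G.hW G.l0 ht hII
    have hεε : ε = ε' := (hits_sign hε hε' hH hH').1
    subst hεε
    have he2 : (algebraMap k K ε) ^ 2 = 1 := by rw [← map_pow, hε, map_one]
    have T1 : TwoCyc P.valuation b c q' n (algebraMap k K lam) (algebraMap k K ε) W :=
      ⟨hctx, cz, hr, G.hW, hl, hII, he2, hnear⟩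
    have T2 : TwoCyc P.valuation b c q' m (algebraMap k K lam') (algebraMap k K ε) W' :=
      ⟨hctx, cz, hr, G.hW', hl', hII', he2, hnear'⟩
    obtain ⟨i, hi⟩ := II_II_close P.valuation T1 T2 hj0
    apply hZ ν hν i
    have e : W i * TT b c (q1 * 2 ^ L)
        = W' j0 * TT b c (q1 * 2 ^ L) + (W i - W' j0) * TT b c (q1 * 2 ^ L) := by ring
    rw [e]
    apply Valuation.map_add_lt _ (hY ν hν)
    apply hlt
    rw [map_mul]
    have hTpos : 0 < P.valuation (TT b c (q1 * 2 ^ L)) := zero_lt_one.trans hcon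
    calc P.valuation (W i - W' j0) * P.valuation (TT b c (q1 * 2 ^ L))
        < P.valuation c ^ 2 * P.valuation (TT b c (q1 * 2 ^ L)) :=
          mul_lt_mul_of_pos_right hi hTpos
      _ = P.valuation c * (P.valuation (TT b c (q1 * 2 ^ L)) * P.valuation c) := by
          rw [sq, mul_assoc, mul_comm (P.valuation c) (P.valuation (TT b c (q1 * 2 ^ L)))]
      _ ≤ P.valuation c := by
          rw [hTc]
          exact mul_le_of_le_one_right' (hbj _)
      _ ≤ 1 := hvc.le

end

end Pool.Agent.helper56.P3
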