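import Pool.Agent.helper56.P3.MaxEnd

/-!
# P3-H4b: statuses at the mixed end
-/

namespace Pool.Agent.helper56.P3

open Finset Pool.Agent.helper56.Per

section

variable {k K : Type*} [Field k] [Field K] [Algebra k K] [IsAlgClosed k] [IsAlgClosed K]
  [CharZero k] [Algebra.IsAlgebraic ℚ k] {n m : ℕ} {lam lam' : k} {a b x3 c : K} {W W' : ℕ → K}
  {O : ValuationSubring k} {q0 L : ℕ}

/-- at the mixed end `e` itself: `W` (type I) has no status `0` and `W'` (type II) has one;
no point of `W` has positive status of lower level -/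
theorem status_at_end {P : ValuationSubring K} {q : ℕ} (G : Glob n m lam lam' a b x3 c W W')
    (hM : Mixed k P b c W W' q) (h2 : O.valuation 2 < 1) (hq0 : Odd q0) (hq : q = q0 * 2 ^ L)
    {t : k} (ht : P.valuation (TT b c q - algebraMap k K t) < 1) (ht1 : 1 < O.valuation t) :
    (∀ i, ¬ (comp P hM.pl O).valuation (W i * TT b c (q0 * 2 ^ L)) < 1) ∧
    (∀ i, ∀ l < L, 1 < (comp P hM.pl O).valuation (W i * TT b c (q0 * 2 ^ l))) ∧
    (∀ i, (comp P hM.pl O).valuation c < (comp P hM.pl O).valuation (W i)) ∧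
    (∃ j0, (comp P hM.pl O).valuation (W' j0 * TT b c (q0 * 2 ^ L)) < 1) ∧
    (∃ j1, (comp P hM.pl O).valuation (W' j1) = 1) ∧
    DCtx (comp P hM.pl O).valuation b c q0 ∧
    1 < (comp P hM.pl O).valuation (TT b c (q0 * 2 ^ L)) := by
  have hP := hM.pl
  have hctx := hM.ctx
  have hr := hM.rot
  have hq0p : 0 < q0 := hq0.pos
  have ht0 : t ≠ 0 := by
    rintro rfl
    rw [map_zero] at ht1
    exact absurd ht1 (not_lt.2 zero_le_one)
  have hTP : P.valuation (TT b c q) = 1 := v_eq_one_of_sub ht (hP.cst t ht0)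
  -- values at the composite
  have hval1 : ∀ {x : K} {α : k}, P.valuation (x - algebraMap k K α) < 1 → O.valuation α = 1 →
      (comp P hM.pl O).valuation x = 1 := by
    intro x α h1 h3
    refine le_antisymm (not_lt.1 fun h => ?_) (not_lt.1 fun h => ?_)
    · exact absurd ((comp_gt_iff hM.pl O h1).1 h) (by rw [h3]; exact lt_irrefl _)
    · exact absurd ((comp_lt_iff hM.pl O h1).1 h) (by rw [h3]; exact lt_irrefl _)
  obtain ⟨ζ, hζ, hres⟩ := rot_residue hP hctx hr
  have hζ' : IsPrimitiveRoot ζ (q0 * 2 ^ L) := hq ▸ hζ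
  refine ⟨fun i hi => ?_, fun i l hl => ?_, fun i => ?_, ?_, ?_, ?_, ?_⟩
  · rw [← hq] at hi
    rcases lt_or_eq_of_le (hM.I.1 i) with h1 | h1
    · have h3 : 1 < P.valuation (W i * TT b c q) := by rw [map_mul, hTP, mul_one]; exact h1
      exact absurd hi (not_lt.2 (comp_gt_of_gt hM.pl O h3).le)
    · obtain ⟨p, x, hp, hn, hx, hx0, _, hxs, hxp, _⟩ :=
        chain_I hP hctx hr G.hW ht hM.I h1.symm
      have h3 := cg_mul hP (hx 0) ht
      rw [mul_zero, add_zero] at h3
      have h4 := (comp_lt_iff hM.pl O h3).1 hi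
      rw [map_mul] at h4
      have hx0v : O.valuation (x 0) ≠ 0 := (O.valuation.ne_zero_iff).2 (hx0 0)
      have htv : 0 < O.valuation t := zero_lt_one.trans ht1
      -- `|t| < |1/x 0|`
      have h5 : O.valuation t < O.valuation (x 0)⁻¹ := by
        rw [map_inv₀, lt_inv_comm₀ htv (zero_lt_iff.2 hx0v)]
        rwa [← mul_lt_mul_iff_left₀ htv, inv_mul_cancel₀ htv.ne']
      have h6 : O.valuation (x 0) < 1 := by
        by_contra h
        rw [not_lt] at h
        exact absurd h4 (not_lt.2 (ht1.le.trans (le_mul_of_one_le_left' h)))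
      have key : ∀ j, O.valuation (x (j + 1)) = O.valuation (x 0)⁻¹ := by
        intro j
        induction j with
        | zero =>
          rw [hxs 0]
          apply v_eq_of_sub_lt
          rw [show x 0 + (x 0)⁻¹ + t - (x 0)⁻¹ = x 0 + t by ring]
          apply Valuation.map_add_lt _ _ h5
          exact (h6.trans ht1).trans h5
        | succ j ih =>
          rw [hxs (j + 1), ← ih]
          apply v_eq_of_sub_lt
          rw [show x (j + 1) + (x (j + 1))⁻¹ + t - x (j + 1) = (x (j + 1))⁻¹ + t by ring, ih]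
          apply Valuation.map_add_lt _ _ h5
          rw [map_inv₀, ih, map_inv₀, inv_inv]
          exact (h6.trans ht1).trans (by rwa [map_inv₀] at h5)
      obtain ⟨p', rfl⟩ : ∃ p', p = p' + 1 := ⟨p - 1, by omega⟩
      have h7 := key p'
      have h8 := hxp 0
      rw [zero_add] at h8
      rw [h8] at h7
      rw [← h7] at h5
      exact absurd (h5.trans h6) (not_lt.2 ht1.le)
  · apply comp_gt_of_gt
    have h1 : P.valuation (b ^ (q0 * 2 ^ l) - 1) = 1 := by
      apply hr.one _ (by positivity)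
      rw [hq]
      exact Nat.mul_lt_mul_of_pos_left (Nat.pow_lt_pow_right (by norm_num) hl) hq0p
    have h3 := v_TT (v := P.valuation) hctx.vb hctx.c0 (q0 * 2 ^ l)
    rw [h1] at h3
    have hc0 : P.valuation c ≠ 0 := (P.valuation.ne_zero_iff).2 hctx.c0
    have h4 : 1 < P.valuation (TT b c (q0 * 2 ^ l)) := by
      rw [eq_inv_of_mul_eq_one_left h3]
      exact (one_lt_inv₀ (zero_lt_iff.2 hc0)).2 hctx.vc
    rw [map_mul]
    exact h4.trans_le (le_mul_of_one_le_left' (hM.I.1 i))
  · have hW0 : (comp P hM.pl O).valuation (W i) ≠ 0 :=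
      ((comp P hM.pl O).valuation.ne_zero_iff).2 (G.hW.ne0 i)
    have hWP : P.valuation (W i) ≠ 0 := (P.valuation.ne_zero_iff).2 (G.hW.ne0 i)
    have h1 : P.valuation (c / W i) < 1 := by
      rw [map_div₀, div_lt_one₀ (zero_lt_iff.2 hWP)]
      exact hctx.vc.trans_le (hM.I.1 i)
    have h3 := comp_lt_of_lt hM.pl O h1
    rwa [map_div₀, div_lt_one₀ (zero_lt_iff.2 hW0)] at h3
  · obtain ⟨j0, hj0⟩ := hM.II
    refine ⟨j0, comp_lt_of_lt hM.pl O ?_⟩
    rw [← hq, map_mul, hTP, mul_one]
    exact hj0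
  · obtain ⟨ε, hε, _, hnear, j1, h1, h3⟩ := near_II hP hctx hr G.hW' G.l0' ht hM.II
    refine ⟨j1, hval1 (hnear j1 h1 h3) ?_⟩
    have h4 : O.valuation ε ^ 2 = 1 := by rw [← map_pow, hε, map_one]
    exact (pow_eq_one_iff_of_nonneg zero_le two_ne_zero).1 h4
  · have h1 : (comp P hM.pl O).valuation b = 1 := by
      have h3 := hres 1
      have h4 : P.valuation (b - algebraMap k K ζ) < 1 := by
        have e : b - algebraMap k K ζ = (b ^ 1 - 1) - algebraMap k K (ζ ^ 1 - 1) := by
          rw [map_sub, map_pow, map_one, pow_one, pow_one]; ring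
        rw [e]
        exact h3
      exact hval1 h4 (H4b_v_one_of_pow O.valuation (by positivity) hζ'.pow_eq_one)
    refine ⟨?_, h1, comp_lt_of_lt hM.pl O hctx.vc, hctx.c0, hq0, fun j hj => ?_, ?_⟩
    · have := (comp_ext hM.pl O).lt_one_iff 2
      rw [map_ofNat] at this
      exact this.2 h2
    · exact hval1 (hres j) (H4b_root_eq O.valuation h2 hq0 hζ' hj)
    · exact (comp_lt_iff hM.pl O (hres q0)).2 (H4b_root_lt O.valuation h2 hq0 hζ' dvd_rfl)
  · rw [← hq]
    exact (comp_gt_iff hM.pl O ht).2 ht1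

end

end Pool.Agent.helper56.P3
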