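import Pool.Agent.helper56.P3.RepN
import Pool.Agent.helper80.P3.RepGaps
import Pool.Agent.helper8.P3.RepSetup
import Pool.Agent.helper90.P3.UnitCase

/-!
# P3: end of the repelling case
-/

namespace Pool.Agent.helper56.P3

open Finset Pool.Agent.helper56.Per

section

variable {k K : Type*} [Field k] [Field K] [Algebra k K] [IsAlgClosed k] [IsAlgClosed K]
  [CharZero k] [Algebra.IsAlgebraic ℚ k] {n m : ℕ} {lam lam' : k} {a b x3 c : K} {W W' : ℕ → K}
  {O : ValuationSubring k} {g : K} {ν0 : ValuationSubring K} {q0 L : ℕ}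

/-- a point which is a hole at all Gauss-type valuations has finite status -/
theorem hole_finite (G : Glob n m lam lam' a b x3 c W W') (R : Rep O g ν0 b c q0 L W W')
    {N : ℕ} {l : k} {X : ℕ → K} (hX : WCyc b c N (algebraMap k K l) X) (hl : 1 < O.valuation l)
    {j : ℕ} (hj : ∀ ν, IsGauss O g ν0 ν → ν.valuation (X j) ≤ 1)
    (hex : ∃ ν, IsGauss O g ν0 ν) :
    ∀ ν, Dom O g ν0 ν → ν.valuation (X j * TT b c (q0 * 2 ^ L)) ≤ 1 := by
  have hq0 : 0 < q0 * 2 ^ L := by
    have h0 := (R.dctx ν0 (dom_self R.base)).odd.pos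
    positivity
  rcases status_T R hX le_rfl j with h | h | h
  · exact fun ν hν => (h ν hν).le
  · exact fun ν hν => (v_one_of_sub_one (h ν hν)).le
  · exfalso
    have hg : ∀ ν, IsGauss O g ν0 ν → ν.valuation (X j) = ν.valuation c := by
      intro ν hν
      obtain ⟨s, hs, _⟩ := hX.exists_gap ν.valuation (hj ν hν) j
      exact (G_hole ν.valuation (R.gctx ν hν) hX (hj ν hν) hs).1
    have h2 : ∀ ν, Dom O g ν0 ν → ν.valuation (X j / TT b c (q0 * 2 ^ L)) < 1 := by
      obtain ⟨ν, hν⟩ := hex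
      obtain ⟨ν', hle, hν'⟩ := exists_dom_le R.base hν.le
      have h3 : ν.valuation (X j / TT b c (q0 * 2 ^ L)) < 1 := by
        have Gc := R.gctx ν hν
        have h4 := v_T_gauss Gc hq0
        have hc0 : ν.valuation c ≠ 0 := (ν.valuation.ne_zero_iff).2 Gc.c0
        have hT : ν.valuation (TT b c (q0 * 2 ^ L)) = (ν.valuation c)⁻¹ :=
          eq_inv_of_mul_eq_one_left h4
        rw [map_div₀, hg ν hν, hT, div_inv_eq_mul]
        exact lt1_of_lt_of_le Gc.vc Gc.vc.le
      have h5 := lt_of_le_of_lt' hle h3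
      rcases status_T' R hX hl j with h6 | h6 | h6
      · exact h6
      · have := v_one_of_sub_one (h6 ν' hν')
        rw [this] at h5
        exact absurd h5 (lt_irrefl _)
      · exact absurd h5 (not_lt.2 (h6 ν' hν').le)
    refine (class_B G R h h2).1 fun ν hν => ?_
    have Gc := R.gctx ν hν
    rw [map_mul, hg ν hν, mul_comm]
    exact v_T_gauss Gc hq0

/-- the gap of a point of finite status does not depend on the Gauss-type valuation -/
theorem gap_const (G : Glob n m lam lam' a b x3 c W W') (R : Rep O g ν0 b c q0 L W W')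
    (hl : 1 < O.valuation lam) {j : ℕ}
    (h : ∀ ν, Dom O g ν0 ν → ν.valuation (W' j * TT b c (q0 * 2 ^ L)) ≤ 1)
    (hex : ∃ ν, IsGauss O g ν0 ν) :
    ∃ u, u ≤ L ∧ ∀ ν, IsGauss O g ν0 ν → IsGap ν.valuation W' j (q0 * 2 ^ u) := by
  have hq0 : 0 < q0 := (R.dctx ν0 (dom_self R.base)).odd.pos
  -- data at one Gauss-type valuation
  have hgap : ∀ ν, IsGauss O g ν0 ν → ∃ u, IsGap ν.valuation W' j (q0 * 2 ^ u) ∧ u ≤ L ∧
      ∃ ν', Dom O g ν0 ν' ∧ ∀ l, ν'.valuation (W' j * TT b c (q0 * 2 ^ l))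
        * ν'.valuation (b ^ q0 - 1) ^ 2 ^ u = ν'.valuation (b ^ q0 - 1) ^ 2 ^ l := by
    intro ν hν
    have Gc := R.gctx ν hν
    have hj := finite_hole R h hν
    obtain ⟨s, hs, _⟩ := G.hW'.exists_gap ν.valuation hj j
    obtain ⟨u, rfl⟩ := rep_gapsY G R hl hν hj hs
    obtain ⟨ν', hle, hν'⟩ := exists_dom_le R.base hν.le
    have D := R.dctx ν' hν'
    have h2 : ν.valuation 2 < 1 := by
      have := (hν.ext.lt_one_iff 2).2 R.h2
      rwa [map_ofNat] at this
    have hbeta : ∀ l, ν'.valuation (b ^ (q0 * 2 ^ l) - 1) = ν'.valuation (b ^ q0 - 1) ^ 2 ^ l := by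
      intro l
      have := beta hle h2 Gc.one D.odd D.lt l (u := 1) odd_one
      rwa [mul_one] at this
    have key : ∀ l, ν'.valuation (W' j * TT b c (q0 * 2 ^ l))
        * ν'.valuation (b ^ q0 - 1) ^ 2 ^ u = ν'.valuation (b ^ q0 - 1) ^ 2 ^ l := by
      intro l
      have := hole_val hle Gc D.vb G.hW' hj hs (q0 * 2 ^ l)
      rwa [hbeta, hbeta] at this
    have hb0 : 0 < ν'.valuation (b ^ q0 - 1) := beta_pos hq0 Gc
    refine ⟨u, hs, ?_, ν', hν', key⟩
    rw [← pow_pow_le hb0 D.lt, ← key L]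
    exact mul_le_of_le_one_left' (h ν' hν')
  obtain ⟨ν, hν⟩ := hex
  obtain ⟨u, hs, hu, ν', hν', hk⟩ := hgap ν hν
  refine ⟨u, hu, fun ν1 hν1 => ?_⟩
  obtain ⟨u1, hs1, hu1, ν1', hν1', hk1⟩ := hgap ν1 hν1
  -- status with respect to level `u`
  have D := R.dctx ν' hν'
  have D1 := R.dctx ν1' hν1'
  have hb0 : 0 < ν'.valuation (b ^ q0 - 1) := beta_pos hq0 (R.gctx ν hν)
  have hb01 : 0 < ν1'.valuation (b ^ q0 - 1) := beta_pos hq0 (R.gctx ν hν)
  have e1 : ν'.valuation (W' j * TT b c (q0 * 2 ^ u)) = 1 := by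
    have := hk u
    have hne : ν'.valuation (b ^ q0 - 1) ^ 2 ^ u ≠ 0 := pow_ne_zero _ hb0.ne'
    exact mul_right_cancel₀ hne (by rw [this, one_mul])
  have e2 : ν1'.valuation (W' j * TT b c (q0 * 2 ^ u)) = 1 := by
    rcases status_T R G.hW' hu j with h3 | h3 | h3
    · exact absurd e1 (h3 ν' hν').ne
    · exact v_one_of_sub_one (h3 ν1' hν1')
    · exact absurd e1 (h3 ν' hν').ne'
  have e3 := hk1 u
  rw [e2, one_mul] at e3
  have : u1 = u := pow_pow_inj hb01 D1.lt e3
  rwa [this] at hs1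

theorem rep_final (G : Glob n m lam lam' a b x3 c W W') (R : Rep O g ν0 b c q0 L W W')
    (hl : 1 < O.valuation lam) : False := by
  have hl' := G.large' hl
  obtain ⟨hex, _, _⟩ := rep_tau G R hl
  have hq0 : 0 < q0 := (R.dctx ν0 (dom_self R.base)).odd.pos
  obtain ⟨ν, hν⟩ := hex
  obtain ⟨j0, hj0⟩ := R.hY
  let A : ℕ → Prop := fun j => ∀ ν, Dom O g ν0 ν →
    ν.valuation (W' j * TT b c (q0 * 2 ^ L)) ≤ 1
  have hland : ∀ j u, A j → (∀ ν, IsGauss O g ν0 ν → IsGap ν.valuation W' j (q0 * 2 ^ u)) →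
      A (j + q0 * 2 ^ u) := fun j u _ hu =>
    hole_finite G R G.hW' hl' (fun ν hν => (hu ν hν).2.1) ⟨ν, hν⟩
  -- position of an index
  have hpos : ∀ d, ∃ i u, u ≤ L ∧ A i ∧ i ≤ j0 + d ∧ j0 + d < i + q0 * 2 ^ u ∧
      ∀ ν, IsGauss O g ν0 ν → IsGap ν.valuation W' i (q0 * 2 ^ u) := by
    intro d
    induction d with
    | zero =>
      have hA : A j0 := fun ν hν => (hj0 ν hν).le
      obtain ⟨u, hu, hg⟩ := gap_const G R hl hA ⟨ν, hν⟩
      exact ⟨j0, u, hu, hA, le_rfl, by
        have : 0 < q0 * 2 ^ u := by positivity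
        omega, hg⟩
    | succ d ih =>
      obtain ⟨i, u, hu, hA, h1, h2, hg⟩ := ih
      by_cases h3 : j0 + (d + 1) < i + q0 * 2 ^ u
      · exact ⟨i, u, hu, hA, by omega, h3, hg⟩
      · have h4 : j0 + (d + 1) = i + q0 * 2 ^ u := by omega
        have hA' := hland i u hA hg
        obtain ⟨u', hu', hg'⟩ := gap_const G R hl hA' ⟨ν, hν⟩
        refine ⟨i + q0 * 2 ^ u, u', hu', hA', h4.ge, ?_, hg'⟩
        have : 0 < q0 * 2 ^ u' := by positivity
        omega
  -- no point has absolute value one at `ν0`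
  have hT0 := R.TL ν0 (dom_self R.base) L le_rfl
  have hno : ∀ d, ν0.valuation (W' (j0 + d)) ≠ 1 := by
    intro d h1
    obtain ⟨i, u, hu, hA, h2, h3, hg⟩ := hpos d
    rcases Nat.eq_or_lt_of_le h2 with h4 | h4
    · have := hA ν0 (dom_self R.base)
      rw [h4, map_mul, h1, one_mul] at this
      exact absurd hT0 (not_lt.2 this)
    · -- an outer point
      obtain ⟨ν', hle, hν'⟩ := exists_dom_le R.base hν.le
      have Gc := R.gctx ν hν
      have D := R.dctx ν' hν'
      have h2' : ν.valuation 2 < 1 := by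
        have := (hν.ext.lt_one_iff 2).2 R.h2
        rwa [map_ofNat] at this
      obtain ⟨t, ht⟩ : ∃ t, t = i + q0 * 2 ^ u - (j0 + d) := ⟨_, rfl⟩
      have ht0 : 0 < t := by omega
      have htl : t < q0 * 2 ^ u := by omega
      have hgν := hg ν hν
      have hbig : 1 < ν.valuation (W' (j0 + d)) := by
        have := hgν.2.2 (j0 + d - i) (by omega) (by omega)
        rwa [show i + (j0 + d - i) = j0 + d by omega] at this
      have hgap : IsGap ν.valuation W' (j0 + d) t := by
        refine ⟨ht0, ?_, fun l hl1 hl2 => ?_⟩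
        · rw [show j0 + d + t = i + q0 * 2 ^ u by omega]; exact hgν.2.1
        · have := hgν.2.2 (j0 + d - i + l) (by omega) (by omega)
          rwa [show i + (j0 + d - i + l) = j0 + d + l by omega] at this
      have hqL : 0 < q0 * 2 ^ L := by positivity
      have e1 := out_val hle Gc D.vb G.hW' hbig hgap hqL
      have hbL : ν'.valuation (b ^ (q0 * 2 ^ L) - 1) = ν'.valuation (b ^ q0 - 1) ^ 2 ^ L := by
        have := beta hle h2' Gc.one D.odd D.lt L (u := 1) odd_one
        rwa [mul_one] at this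
      have hb0 : 0 < ν'.valuation (b ^ q0 - 1) := beta_pos hq0 Gc
      have hlt : ν'.valuation (b ^ q0 - 1) ^ 2 ^ L < ν'.valuation (b ^ t - 1) := by
        by_cases hdvd : q0 ∣ t
        · obtain ⟨t', rfl⟩ := hdvd
          obtain ⟨l, u', hu', rfl⟩ : ∃ l u', Odd u' ∧ t' = 2 ^ l * u' := by
            obtain ⟨l, u', hu', h⟩ := Nat.exists_eq_two_pow_mul_odd (n := t') (by
              rintro rfl; simp at ht0)
            exact ⟨l, u', hu', h⟩
          have hlu : l < L := by
            have h5 : q0 * (2 ^ l * u') < q0 * 2 ^ u := htl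
            have h6 : 2 ^ l * u' < 2 ^ u := lt_of_mul_lt_mul_left h5 (Nat.zero_le _)
            have h7 : 2 ^ l ≤ 2 ^ l * u' := Nat.le_mul_of_pos_right _ hu'.pos
            have h8 : 2 ^ l < 2 ^ u := h7.trans_lt h6
            have h9 : l < u := (Nat.pow_lt_pow_iff_right (by norm_num)).1 h8
            omega
          have := beta hle h2' Gc.one D.odd D.lt l hu'
          rw [show q0 * (2 ^ l * u') = q0 * 2 ^ l * u' by ring, this]
          exact pow_lt_pow_right_of_lt_one₀ hb0 D.lt (Nat.pow_lt_pow_right (by norm_num) hlu)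
        · rw [D.one t hdvd]
          exact pow_lt_one₀ zero_le D.lt (by positivity)
      have hgt : 1 < ν'.valuation (W' (j0 + d) / TT b c (q0 * 2 ^ L)) := by
        rw [hbL] at e1
        rw [← e1] at hlt
        by_contra hc
        rw [not_lt] at hc
        exact absurd hlt (not_lt.2 (mul_le_of_le_one_left' hc))
      have h5 : 1 < ν0.valuation (W' (j0 + d) / TT b c (q0 * 2 ^ L)) := by
        rcases status_T' R G.hW' hl' (j0 + d) with h6 | h6 | h6
        · exact absurd hgt (not_lt.2 (h6 ν' hν').le)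
        · exact absurd hgt (by rw [v_one_of_sub_one (h6 ν' hν')]; exact lt_irrefl _)
        · exact h6 ν0 (dom_self R.base)
      rw [map_div₀, h1, one_div] at h5
      exact absurd h5 (not_lt.2 (inv_le_one_of_one_le₀ hT0.le))
  obtain ⟨j1, hj1⟩ := R.nearY
  apply hno (j1 + j0 * m - j0)
  have hm0 := G.hW'.npos
  have h6 : j0 ≤ j0 * m := Nat.le_mul_of_pos_right _ hm0
  rw [show j0 + (j1 + j0 * m - j0) = j1 + j0 * m by omega, per_mul G.hW'.per]
  exact hj1

theorem no_mixed_two {P : ValuationSubring K} {q : ℕ} (G : Glob n m lam lam' a b x3 c W W')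
    (hM : Mixed k P b c W W' q) (h2 : O.valuation 2 < 1)
    (hmax : ∀ P' q', Mixed k P' b c W W' q' → q' ≤ q)
    {t : k} (ht : P.valuation (TT b c q - algebraMap k K t) < 1) (ht1 : 1 < O.valuation t) :
    False := by
  by_cases hl : 1 < O.valuation lam
  · obtain ⟨g, ν0, q0, L, R⟩ := rep_setup G hM h2 hmax ht ht1 hl
    exact rep_final G R hl
  · rw [not_lt] at hl
    obtain ⟨h3, h4, _⟩ := two_dyadic G.ts G.hs two_ne_zero O h2 hl G.hW.npos G.hW'.npos
    exact unit_case G hM h2 hmax ht ht1 h3 h4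

end

end Pool.Agent.helper56.P3
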