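import Pool.Agent.helper18.P3.Finite
import Pool.Agent.helper36.P3.Places
import Pool.Agent.helper39.P3.WBasic
import Pool.Agent.helper56.P3.Util
import Pool.Agent.helper69.P3.C1
import Pool.Agent.helper79.P3.QXinv
import Pool.Agent.helper31.P3.NoMixedOne
import Pool.Agent.helper56.P3.Chain
import Pool.Agent.helper56.P3.RepFinal
import Pool.Agent.helper85.P3.Ends
import Pool.Agent.helper95.P3.ClassifyA

/-!
# P3: no mixed ends; the main theorem at the generic point
-/

namespace Pool.Agent.helper56.P3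

open Finset Pool.Agent.helper56.Per

section

variable {k K : Type*} [Field k] [Field K] [Algebra k K] [IsAlgClosed k] [IsAlgClosed K]
  [CharZero k] [Algebra.IsAlgebraic ℚ k] {n m : ℕ} {lam lam' : k} {a b x3 c : K} {W W' : ℕ → K}

theorem no_mixed {P : ValuationSubring K} {q : ℕ} (G : Glob n m lam lam' a b x3 c W W')
    (hM : Mixed k P b c W W' q) : n = 2 ∧ lam = -3 := by
  classical
  have hbd : ∀ q', (∃ P', Mixed k P' b c W W' q') → q' ≤ n := by
    rintro q' ⟨P', hM'⟩
    obtain ⟨t, ht⟩ := hM'.pl.res _ (TT_le_of_rot hM'.ctx hM'.rot)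
    obtain ⟨i0, hi0⟩ := hM'.I.2.1
    obtain ⟨p, x, hp, hn, _⟩ := chain_I hM'.pl hM'.ctx hM'.rot G.hW ht hM'.I hi0
    rw [hn]
    exact Nat.le_mul_of_pos_right _ hp
  obtain ⟨Q, hQ, hmax⟩ : ∃ Q, (∃ P', Mixed k P' b c W W' Q) ∧
      ∀ q', (∃ P', Mixed k P' b c W W' q') → q' ≤ Q :=
    ⟨Nat.findGreatest (fun q' => ∃ P', Mixed k P' b c W W' q') n,
      Nat.findGreatest_spec (P := fun q' => ∃ P', Mixed k P' b c W W' q') (hbd q ⟨P, hM⟩) ⟨P, hM⟩,
      fun q' hq' => Nat.le_findGreatest (hbd q' hq') hq'⟩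
  obtain ⟨P1, hM1⟩ := hQ
  obtain ⟨t, ht⟩ := hM1.pl.res _ (TT_le_of_rot hM1.ctx hM1.rot)
  obtain ⟨ε, hε, ⟨ℓ, hℓ, hH⟩, _, _⟩ :=
    near_II hM1.pl hM1.ctx hM1.rot G.hW' G.l0' ht hM1.II
  rcases Nat.lt_or_ge ℓ 2 with h2 | h2
  · have h1 : ℓ = 1 := by omega
    rw [h1] at hH
    exact no_mixed_one G.hW G.hW' G.l0 G.l0' hM1 ht hε hH
  · exfalso
    obtain ⟨O, hO⟩ := exists_dyadic k
    exact no_mixed_two G hM1 hO (fun P' q' h => hmax q' ⟨P', h⟩) ht (hits_dyadic O hO hε hH h2)

/-- an end -/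
theorem end_lemma {X : K} (hTD : TD1 k K) (l0 : lam ≠ 0) (l0' : lam' ≠ 0)
    (hex : ¬ (n = 2 ∧ lam = -3)) (hex' : ¬ (m = 2 ∧ lam' = -3))
    (hT : TS (QX n m (algebraMap k K lam) (algebraMap k K lam') X) a b x3)
    (hs : a + b + x3 ∉ Set.range (algebraMap k K)) {P : ValuationSubring K} (hP : IsPl k P)
    (hx : 1 < P.valuation x3) : P.valuation X < 1 := by
  set v := P.valuation with hv
  have hcz : CharZ v := hP.charZ
  have hL : v (algebraMap k K lam) = 1 := hP.cst _ l0
  have hH : ∀ x y : K, 1 < v x → 1 < v y →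
      QX n m (algebraMap k K lam) (algebraMap k K lam') X x y → False := by
    rintro x y hx hy ⟨z, _, hz, _⟩
    exact absurd hL (H_gt v hx hy hz).ne'
  have ha : v a ≤ 1 := by
    by_contra h
    rw [not_le] at h
    exact hH _ _ h hx (hT.ac (ne_one_of_large v h hx))
  have hb : v b ≤ 1 := by
    by_contra h
    rw [not_le] at h
    exact hH _ _ h hx (hT.bc (ne_one_of_large v h hx))
  by_cases hab : a * b = 1
  · exfalso
    have hrel := hT.rel
    rw [hab, one_mul] at hrel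
    have h2 : a + b = 2 := by linear_combination -hrel
    have ha1 : a = 1 := by
      have : (a - 1) ^ 2 = 0 := by
        have hb' : b = 2 - a := by linear_combination h2
        rw [hb'] at hab
        linear_combination -hab
      exact sub_eq_zero.1 (pow_eq_zero_iff (two_ne_zero)|>.1 this)
    have hne : a * x3 ≠ 1 := by
      rw [ha1, one_mul]
      rintro rfl
      rw [map_one] at hx
      exact lt_irrefl _ hx
    obtain ⟨z, _, hz, _⟩ := hT.ca hne
    rw [ha1] at hz
    have := translation v hx (hcz n hz.npos.ne') (fun j hj _ => hcz j hj.ne') hz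
    exact absurd hL this.ne'
  · obtain ⟨z, y, hz, hy, hzx, hyx, hne, hXe⟩ := hT.ab hab
    obtain ⟨c, hc2⟩ : ∃ c : K, c ^ 2 = 1 - a * b := IsAlgClosed.exists_pow_nat_eq _ (by norm_num)
    have hc0 : c ≠ 0 := by
      rintro rfl
      apply hab
      linear_combination hc2
    have hc := end_ctx v hcz hT.rel ha hb hx hc2 hc0
    have hb0 : b ≠ 0 := by
      rintro rfl
      have := hc.vb
      rw [map_zero] at this
      exact zero_ne_one this
    have hW := toW hz hzx hb0 hc2 hc0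
    have hW' := toW hy hyx hb0 hc2 hc0
    have hne' : ∀ i j, (fun i => (b * z i + 1) / c) i ≠ (fun i => (b * y i + 1) / c) j := by
      intro i j h0
      apply hne i j
      beta_reduce at h0
      rw [div_left_inj' hc0, add_left_inj] at h0
      exact mul_left_cancel₀ hb0 h0
    have hT2 : TS (Q2 n m (algebraMap k K lam) (algebraMap k K lam')) a b x3 :=
      hT.mono fun _ _ h => h.toQ2
    have G : Glob n m lam lam' a b x3 c _ _ := ⟨hTD, hT2, hs, hc2, hW, hW', hne', l0, l0'⟩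
    have G' : Glob m n lam' lam a b x3 c _ _ :=
      ⟨hTD, hT2.mono fun _ _ h => h.symm, hs, hc2, hW', hW, fun i j h => hne' j i h.symm, l0', l0⟩
    have key := end_neg hP hc hW hW' hne' l0 l0' (fun q hM => hex (no_mixed G hM))
      (fun q hM => hex' (no_mixed G' hM))
    rw [← hXe]
    have e : ∏ i ∈ range n, ∏ j ∈ range m, EN a b (z i) (y j)
        = ∏ i ∈ range n, ∏ j ∈ range m, EW ((b * z i + 1) / c) ((b * y j + 1) / c) :=
      prod_congr rfl fun i _ => prod_congr rfl fun j _ => EN_eq_EW hb0 hc2 hc0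
    rw [e]
    exact key

theorem main_generic (hTD : TD1 k K) (hn : 2 ≤ n) (hm : 2 ≤ m) (l0 : lam ≠ 0) (l0' : lam' ≠ 0)
    (hab : a * b ≠ 1)
    (hnc : ¬ (a ∈ Set.range (algebraMap k K) ∧ b ∈ Set.range (algebraMap k K)))
    {z y : ℕ → K} (hz : NCyc a b n (algebraMap k K lam) z)
    (hy : NCyc a b m (algebraMap k K lam') y) (hzx : Exact n z) (hyx : Exact m y)
    (hne : ∀ i j, z i ≠ y j) (hex : ¬ (n = 2 ∧ lam = -3)) (hex' : ¬ (m = 2 ∧ lam' = -3)) :
    False := by
  obtain ⟨X, hXd⟩ : ∃ X, X = ∏ i ∈ range n, ∏ j ∈ range m, EN a b (z i) (y j) := ⟨_, rfl⟩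
  have hQ : QX n m (algebraMap k K lam) (algebraMap k K lam') X a b :=
    ⟨z, y, hz, hy, hzx, hyx, hne, hXd.symm⟩
  obtain ⟨x3, hx3⟩ : ∃ x3, x3 = (2 - a - b) / (1 - a * b) := ⟨_, rfl⟩
  have hT : TS (QX n m (algebraMap k K lam) (algebraMap k K lam') X) a b x3 := by
    rw [hx3]
    exact TS.of (fun _ _ h => h.swap) (fun _ _ h1 h2 h => h.psi h1 h2) hab hQ
  have hs : a + b + x3 ∉ Set.range (algebraMap k K) :=
    two_s (hT.mono fun _ _ h => h.toQ2) fun hh => hnc ⟨hh.1, hh.2.1⟩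
  have hX0 : X ≠ 0 := by
    rw [hXd]
    have hd : (1 : K) - a * b ≠ 0 := sub_ne_zero.2 (Ne.symm hab)
    have hnz : ∀ (n : ℕ) (l : k) (z : ℕ → K), l ≠ 0 → NCyc a b n (algebraMap k K l) z →
        ∀ i, b * z i ^ 2 + 2 * z i + a ≠ 0 := by
      intro n l z hl hz
      have h1 : ∏ i ∈ range n, (b * z i ^ 2 + 2 * z i + a) ≠ 0 := by
        rw [hz.mul]
        exact mul_ne_zero ((_root_.map_ne_zero _).2 hl)
          (prod_ne_zero_iff.2 fun i _ => pow_ne_zero _ (hz.den i))
      exact hz.forall_of (P := fun x => b * x ^ 2 + 2 * x + a ≠ 0)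
        fun i hi => prod_ne_zero_iff.1 h1 i hi
    refine prod_ne_zero_iff.2 fun i _ => prod_ne_zero_iff.2 fun j _ => ?_
    unfold EN
    exact div_ne_zero (mul_ne_zero hd (pow_ne_zero _ (sub_ne_zero.2 (hne i j))))
      (mul_ne_zero (hnz n lam z l0 hz i) (hnz m lam' y l0' hy j))
  have key : ∀ V : ValuationSubring K, (∀ α : k, algebraMap k K α ∈ V) →
      V.valuation X ≤ 1 ∧ (1 < V.valuation (a + b + x3) → V.valuation X < 1) := by
    intro V hV
    by_cases htop : V = ⊤
    · have hall : ∀ x : K, V.valuation x ≤ 1 := by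
        intro x
        rw [ValuationSubring.valuation_le_one_iff, htop]
        trivial
      exact ⟨hall _, fun h => absurd (hall _) (not_le.2 h)⟩
    have hP : IsPl k V := isPl_of hTD V hV htop
    by_cases hx : 1 < V.valuation x3
    · have := end_lemma hTD l0 l0' hex hex' hT hs hP hx
      exact ⟨this.le, fun _ => this⟩
    by_cases hb : 1 < V.valuation b
    · have := end_lemma hTD l0 l0' hex hex' hT.p23
        (by rwa [show a + x3 + b = a + b + x3 by ring]) hP hb
      exact ⟨this.le, fun _ => this⟩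
    by_cases ha : 1 < V.valuation a
    · have := end_lemma hTD l0 l0' hex hex' hT.p13
        (by rwa [show x3 + b + a = a + b + x3 by ring]) hP ha
      exact ⟨this.le, fun _ => this⟩
    rw [not_lt] at hx hb ha
    refine ⟨finite_place V.valuation hP.charZ hT hab (hP.cst _ l0) (hP.cst _ l0') ha hb hx, ?_⟩
    intro h
    exact absurd (V.valuation.map_add_le (V.valuation.map_add_le ha hb) hx) (not_le.2 h)
  have hcst : ∀ B : ValuationSubring K, Ext (⊤ : ValuationSubring k) B.valuation →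
      ∀ α : k, algebraMap k K α ∈ B := by
    intro B hE α
    rw [← ValuationSubring.valuation_le_one_iff]
    exact (hE α).2 (top_val_le α)
  have hXr : X ∈ Set.range (algebraMap k K) := by
    by_contra hX
    have hX' : X⁻¹ ∉ Set.range (algebraMap k K) := by
      rintro ⟨x, hx⟩
      exact hX ⟨x⁻¹, by rw [map_inv₀, hx, inv_inv]⟩
    obtain ⟨B, hE, hB⟩ := exists_close (⊤ : ValuationSubring k) hX'
    have h1 := (key B (hcst B hE)).1
    rw [map_inv₀, inv_lt_one₀ (zero_lt_iff.2 ((B.valuation.ne_zero_iff).2 hX0))] at hB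
    exact absurd h1 (not_le.2 hB)
  obtain ⟨ξ, hξ⟩ := hXr
  have hξ0 : ξ ≠ 0 := by
    rintro rfl
    rw [map_zero] at hξ
    exact hX0 hξ.symm
  have hs' : (a + b + x3)⁻¹ ∉ Set.range (algebraMap k K) := by
    rintro ⟨x, hx⟩
    exact hs ⟨x⁻¹, by rw [map_inv₀, hx, inv_inv]⟩
  obtain ⟨B, hE, hB⟩ := exists_close (⊤ : ValuationSubring k) hs'
  have hs0 : a + b + x3 ≠ 0 := by
    intro h0
    exact hs ⟨0, by rw [h0, map_zero]⟩
  rw [map_inv₀, inv_lt_one₀ (zero_lt_iff.2 ((B.valuation.ne_zero_iff).2 hs0))] at hB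
  have h1 := (key B (hcst B hE)).2 hB
  rw [← hξ] at h1
  have h2 : B.valuation (algebraMap k K ξ) = 1 := (hE.eq_one_iff ξ).2 (top_val_eq hξ0)
  exact absurd h2 h1.ne

end

end Pool.Agent.helper56.P3
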