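import Pool.Agent.helper13.P3.Fields
import Pool.Agent.helper36.P3.Milnor
import Pool.Agent.helper39.P3.FixedCase
import Pool.Agent.helper56.P3.NoMixed
import Pool.Agent.helper56.P3.GenericExact

/-!
# P3: the final theorem for `common`
-/

namespace Pool.Agent.helper56.P3

open Finset Pool.Agent.helper56.Per

section

variable {K K' : Type*} [Field K] [Field K']

theorem NCyc.map (φ : K →+* K') {a b : K} {n : ℕ} {lam : K} {z : ℕ → K}
    (h : NCyc a b n lam z) : NCyc (φ a) (φ b) n (φ lam) (fun i => φ (z i)) := by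
  refine ⟨h.npos, fun i => (map_ne_zero φ).2 (h.ne0 i), fun i => ?_, fun i => ?_, fun i => ?_,
    fun i h0 => h.ne i (φ.injective h0), ?_⟩
  · rw [← map_mul, ← map_one φ, ← map_add]
    exact (map_ne_zero φ).2 (h.den i)
  · have := congrArg φ (h.step i)
    simpa only [map_mul, map_add, map_one] using this
  · simp only [h.per]
  · have := congrArg φ h.mul
    rw [map_mul, map_prod, map_prod] at this
    simpa only [map_mul, map_add, map_one, map_pow, map_ofNat] using this

theorem Exact.map (φ : K →+* K') {n : ℕ} {z : ℕ → K} (h : Exact n z) :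
    Exact n (fun i => φ (z i)) := fun i j hij => h i j (φ.injective hij)

theorem NCyc.shared {a b : K} {n m : ℕ} {L L' : K} {x y : ℕ → K} (hx : NCyc a b n L x)
    (hy : NCyc a b m L' y) {i j : ℕ} (hij : x i = y j) (k : ℕ) : x (i + k) = y (j + k) := by
  induction k with
  | zero => exact hij
  | succ k ih =>
    have h1 := hx.step (i + k)
    have h2 := hy.step (j + k)
    rw [ih] at h1
    have h3 := hy.den (j + k)
    rw [← add_assoc, ← add_assoc]
    exact mul_right_cancel₀ h3 (h1.trans h2.symm)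

theorem prod_shift_k {M : Type*} [CommMonoid M] (g : ℕ → M) (n : ℕ) (h : ∀ i, g (i + n) = g i)
    (k : ℕ) : ∏ i ∈ range n, g (k + i) = ∏ i ∈ range n, g i := by
  induction k with
  | zero => simp
  | succ k ih =>
    rw [← ih]
    have := prod_shift (fun i => g (k + i)) n (by
      show g (k + n) = g (k + 0)
      rw [h, add_zero])
    rw [← this]
    exact prod_congr rfl fun i _ => by rw [show k + 1 + i = k + (i + 1) by ring]

theorem NCyc.shared_mul {a b : K} {n : ℕ} {L L' : K} {x y : ℕ → K} (hx : NCyc a b n L x)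
    (hy : NCyc a b n L' y) {i j : ℕ} (hij : x i = y j) : L = L' := by
  have e1 := hx.mul
  have e2 := hy.mul
  rw [← prod_shift_k (fun i => b * x i ^ 2 + 2 * x i + a) n (fun i => by simp only [hx.per]) i,
    ← prod_shift_k (fun i => (b * x i + 1) ^ 2) n (fun i => by simp only [hx.per]) i] at e1
  rw [← prod_shift_k (fun i => b * y i ^ 2 + 2 * y i + a) n (fun i => by simp only [hy.per]) j,
    ← prod_shift_k (fun i => (b * y i + 1) ^ 2) n (fun i => by simp only [hy.per]) j] at e2
  have h3 : ∏ k ∈ range n, (b * y (j + k) + 1) ^ 2 ≠ 0 :=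
    prod_ne_zero_iff.2 fun k _ => pow_ne_zero _ (hy.den _)
  have e : ∀ k, x (i + k) = y (j + k) := NCyc.shared hx hy hij
  simp only [e] at e1
  exact mul_right_cancel₀ h3 (e1.symm.trans e2)

end

variable {n m : ℕ} {lam lam' : ℂ}

theorem final_one (hm : 2 ≤ m) (h : (common 1 m lam lam').Infinite) : False := by
  obtain ⟨_, h1, _, hloc, _⟩ := main h
  obtain ⟨q, hq, _, hprim⟩ := h1 rfl
  have hl' : lam' ≠ 0 := (algebraic_aux (n := m) (m := 1) fun O => (hloc O).symm).2
  obtain ⟨b, hb, y, hy, hyx⟩ := generic_one_exact hm h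
  have hy' := hy.swap
  have hyx' : Exact m (fun i => (y i)⁻¹) := fun i j hij => hyx i j (inv_injective hij)
  let φ : KK →+* AlgebraicClosure KK := algebraMap _ _
  have h2 := NCyc.map φ hy'
  have h3 := Exact.map φ hyx'
  have e : ∀ x : ℂ, φ (algebraMap ℂ KK x) = algebraMap ℂ (AlgebraicClosure KK) x := fun x =>
    (IsScalarTower.algebraMap_apply ℂ KK (AlgebraicClosure KK) x).symm
  rw [e, e] at h2
  refine n1_generic hm hq hprim hl' (a := φ b) ?_ h2 h3
  rintro ⟨x, hx⟩
  rw [← e] at hx
  exact hb ⟨x, φ.injective hx⟩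

theorem ne_zero_of_common (h : (common n m lam lam').Infinite) : lam ≠ 0 ∧ lam' ≠ 0 := by
  obtain ⟨_, _, _, hloc, _⟩ := main h
  exact ⟨(algebraic_aux hloc).2,
    (algebraic_aux (n := m) (m := n) (lam := lam') (lam' := lam) fun O => (hloc O).symm).2⟩

theorem final_two (hn : 2 ≤ n) (hm : 2 ≤ m) (h : (common n m lam lam').Infinite)
    (h2 : ¬ (m = 2 ∧ lam' = -3)) : n = 2 ∧ lam = -3 ∧ m = 3 ∧ lam' = 1 := by
  obtain ⟨l0, l0'⟩ := ne_zero_of_common h
  obtain ⟨k, K, _, _, _, _, _, _, _, l, l', ι, a, b, z, y, hl, hl', hTD, hab, hnc, hz, hy, hzx, hyx,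
    hne⟩ := exists_fields hn hm h
  have m0 : l ≠ 0 := by rintro rfl; rw [map_zero] at hl; exact l0 hl.symm
  have m0' : l' ≠ 0 := by rintro rfl; rw [map_zero] at hl'; exact l0' hl'.symm
  have h3 : ∀ x : k, ι x = -3 → x = -3 := by
    intro x hx
    apply ι.injective
    rw [hx, map_neg, map_ofNat]
  have h2' : ¬ (m = 2 ∧ l' = -3) := by
    rintro ⟨h4, h5⟩
    apply h2
    refine ⟨h4, ?_⟩
    rw [← hl', h5, map_neg, map_ofNat]
  by_cases h1 : n = 2 ∧ l = -3
  · obtain ⟨rfl, rfl⟩ := h1
    have hlam : lam = -3 := by rw [← hl, map_neg, map_ofNat]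
    have hz' : NCyc a b 2 (-3) z := by
      have := hz
      rwa [map_neg, map_ofNat] at this
    have hm3 : 3 ≤ m := by
      by_contra hc
      have hm2 : m = 2 := by omega
      subst hm2
      obtain ⟨i, j, hij⟩ := two_cycle_unique hab hz hy hzx hyx (by
        have : (2 : K) = algebraMap k K 2 := by rw [map_ofNat]
        rw [this]
        exact (_root_.map_ne_zero _).2 two_ne_zero)
      exact hne i j hij
    obtain ⟨x, hx, hxx⟩ := milnor hab hnc hz' hzx
    by_cases hsh : ∃ i j, x i = y j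
    · obtain ⟨i, j, hij⟩ := hsh
      have e3 := NCyc.shared hx hy hij 3
      rw [hx.per, hij] at e3
      have h4 := hyx _ _ e3
      have hm3' : m = 3 := by
        have h5 : m ∣ 3 := by
          have : (j + 3) % m = (j + 0) % m := by rw [← h4, add_zero]
          have h6 : j + 3 ≡ j + 0 [MOD m] := this
          exact (Nat.modEq_zero_iff_dvd).1 (Nat.ModEq.add_left_cancel' j h6)
        have := Nat.le_of_dvd (by norm_num) h5
        omega
      subst hm3'
      have h7 := NCyc.shared_mul hx hy hij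
      have h8 : l' = 1 := by
        apply (algebraMap k K).injective
        rw [← h7, map_one]
      exact ⟨rfl, hlam, rfl, by rw [← hl', h8, map_one]⟩
    · push Not at hsh
      exfalso
      have hx' : NCyc a b 3 (algebraMap k K 1) x := by rwa [map_one]
      exact main_generic hTD (by norm_num) hm one_ne_zero m0' hab hnc hx' hy hxx hyx hsh
        (by rintro ⟨h4, _⟩; omega) (by rintro ⟨h4, _⟩; omega)
  · exfalso
    exact main_generic hTD hn hm m0 m0' hab hnc hz hy hzx hyx hne h1 h2'

theorem final (h : (common n m lam lam').Infinite) :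
    (n = 2 ∧ lam = -3 ∧ m = 3 ∧ lam' = 1) ∨ (n = 3 ∧ lam = 1 ∧ m = 2 ∧ lam' = -3) := by
  obtain ⟨c₀, f, z, y, _, hz, hy, _⟩ := h.nonempty
  have hn0 : 0 < n := hz.1
  have hm0 : 0 < m := hy.1
  have h' := h
  rw [common_symm] at h'
  by_cases hn1 : n = 1
  · subst hn1
    by_cases hm1 : m = 1
    · subst hm1
      exact absurd common_one_one h
    · exact (final_one (by omega) h).elim
  by_cases hm1 : m = 1
  · subst hm1
    exact (final_one (by omega) h').elim
  have hn : 2 ≤ n := by omega
  have hm : 2 ≤ m := by omega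
  by_cases h2 : m = 2 ∧ lam' = -3
  · obtain ⟨rfl, rfl⟩ := h2
    by_cases h3 : n = 2 ∧ lam = -3
    · obtain ⟨rfl, rfl⟩ := h3
      exfalso
      obtain ⟨k, K, _, _, _, _, _, _, _, l, l', ι, a, b, z, y, hl, hl', hTD, hab, hnc, hz, hy, hzx,
        hyx, hne⟩ := exists_fields hn hm h
      obtain ⟨i, j, hij⟩ := two_cycle_unique hab hz hy hzx hyx (by
        have : (2 : K) = algebraMap k K 2 := by rw [map_ofNat]
        rw [this]
        exact (_root_.map_ne_zero _).2 two_ne_zero)
      exact hne i j hij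
    · obtain ⟨_, _, h4, h5⟩ := final_two hm hn h' h3
      exact Or.inr ⟨h4, h5, rfl, rfl⟩
  · exact Or.inl (final_two hn hm h h2)

end Pool.Agent.helper56.P3
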