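import Pool.Agent.helper41.P3.Invariants
import Pool.Agent.helper56.P3.ClCore
import Pool.Agent.helper56.P3.FinalCommon
import Pool.Agent.helper6.P3.Classes

/-!
# P3-C: the final theorem for the closures
-/

namespace Pool.Agent.helper56.P3

open Finset Pool.Agent.helper56.Per

/-! ### the Zariski topology -/

theorem isZClosed_empty : IsZClosed ∅ := by
  refine ⟨{1}, fun f => ⟨fun h => absurd h (Set.notMem_empty _), fun h => ?_⟩⟩
  have := h 1 rfl
  rw [map_one] at this
  exact absurd this one_ne_zero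

theorem isZClosed_union {A B : Set M2} (hA : IsZClosed A) (hB : IsZClosed B) :
    IsZClosed (A ∪ B) := by
  obtain ⟨I, hI⟩ := hA
  obtain ⟨J, hJ⟩ := hB
  refine ⟨{R | ∃ P ∈ I, ∃ Q ∈ J, R = P * Q}, fun f => ?_⟩
  refine (or_congr (hI f) (hJ f)).trans ?_
  constructor
  · rintro (h | h)
    · rintro _ ⟨P, hP, Q, _, rfl⟩
      rw [map_mul, h P hP, zero_mul]
    · rintro _ ⟨P, _, Q, hQ, rfl⟩
      rw [map_mul, h Q hQ, mul_zero]
  · intro h
    by_contra hc
    push Not at hc
    obtain ⟨⟨P, hP, hP0⟩, ⟨Q, hQ, hQ0⟩⟩ := hc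
    have := h (P * Q) ⟨P, hP, Q, hQ, rfl⟩
    rw [map_mul] at this
    exact (mul_ne_zero hP0 hQ0) this

theorem zclosure_mono {A B : Set M2} (h : A ⊆ B) : zclosure A ⊆ zclosure B :=
  fun _ hc C hC hB => hc C hC (h.trans hB)

theorem zclosure_subset {A C : Set M2} (hC : IsZClosed C) (h : A ⊆ C) : zclosure A ⊆ C :=
  fun _ hc => hc C hC h

theorem zclosure_empty : zclosure ∅ = ∅ :=
  Set.subset_eq_empty (zclosure_subset isZClosed_empty (Set.Subset.refl _)) rfl

theorem zclosure_union (A B : Set M2) : zclosure (A ∪ B) ⊆ zclosure A ∪ zclosure B := by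
  intro c hc
  by_contra h
  rw [Set.mem_union, not_or] at h
  obtain ⟨h1, h2⟩ := h
  simp only [zclosure, Set.mem_ofPred_eq, not_forall] at h1 h2
  obtain ⟨C1, hC1, hA, hc1⟩ := h1
  obtain ⟨C2, hC2, hB, hc2⟩ := h2
  rcases hc _ (isZClosed_union hC1 hC2) (Set.union_subset_union hA hB) with h | h
  · exact hc1 h
  · exact hc2 h

theorem zclosure_biUnion {ι : Type*} (s : Set ι) (hs : s.Finite) (A : ι → Set M2) :
    zclosure (⋃ i ∈ s, A i) ⊆ ⋃ i ∈ s, zclosure (A i) := by
  induction s, hs using Set.Finite.induction_on with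
  | empty =>
    simp only [Set.mem_empty_iff_false, Set.iUnion_of_empty, Set.iUnion_empty]
    rw [zclosure_empty]
  | @insert a s _ _ ih =>
    rw [Set.biUnion_insert, Set.biUnion_insert]
    exact (zclosure_union _ _).trans (Set.union_subset_union (Set.Subset.refl _) ih)

/-! ### closures and finite sets -/

theorem perSet_zero (lam : ℂ) : perSet 0 lam = ∅ := by
  ext c
  simp only [Set.mem_empty_iff_false, iff_false]
  rintro ⟨f, z, _, h, _⟩
  exact lt_irrefl _ h

theorem diff_finite_of {n : ℕ} {lam : ℂ}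
    (h : {x : ℂ × ℂ | x.1 * x.2 ≠ 1 ∧ Phi x ∈ PerStar n lam ∧ Phi x ∉ perSet n lam}.Finite) :
    (PerStar n lam \ perSet n lam).Finite := by
  refine ((h.image Phi).union (Set.finite_singleton (Quot.mk _ QMap.S))).subset ?_
  rintro c ⟨h1, h2⟩
  rcases exists_Phi c with rfl | ⟨a, b, hab, rfl⟩
  · exact Or.inr rfl
  · exact Or.inl ⟨(a, b), ⟨hab, h1, h2⟩, rfl⟩

theorem PerStar_diff_finite (n : ℕ) (lam : ℂ) : (PerStar n lam \ perSet n lam).Finite := by
  rcases (show n = 0 ∨ n = 1 ∨ 2 ≤ n by omega) with rfl | rfl | hn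
  · rw [PerStar, perSet_zero, zclosure_empty, Set.empty_sdiff]
    exact Set.finite_empty
  · apply diff_finite_of
    convert Set.finite_empty
    ext ⟨a, b⟩
    simp only [Set.mem_ofPred_eq, Set.mem_empty_iff_false, iff_false]
    rintro ⟨hab, h1, h2⟩
    apply h2
    obtain ⟨C, hC, hS, hP⟩ := closed_of_poly
      (MvPolynomial.C (lam ^ 3) - MvPolynomial.X 0 * MvPolynomial.C (lam ^ 2)
        + MvPolynomial.X 1 * MvPolynomial.C lam - (MvPolynomial.X 0 - MvPolynomial.C 2))
    have key : ∀ a b : ℂ, a * b ≠ 1 → (Phi (a, b) ∈ C ↔ Phi (a, b) ∈ perSet 1 lam) := by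
      intro a b hab
      rw [hP a b hab, perSet_iff_one hab]
      have hd : 1 - a * b ≠ 0 := sub_ne_zero.2 (Ne.symm hab)
      have e : MvPolynomial.eval ![sg1 a b, sg2 a b]
          (MvPolynomial.C (lam ^ 3) - MvPolynomial.X 0 * MvPolynomial.C (lam ^ 2)
            + MvPolynomial.X 1 * MvPolynomial.C lam - (MvPolynomial.X 0 - MvPolynomial.C 2))
          = (lam - a) * (lam - b) * (lam - (2 - a - b) / (1 - a * b)) := by
        simp only [map_sub, map_add, map_mul, MvPolynomial.eval_C, MvPolynomial.eval_X,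
          Matrix.cons_val_zero, Matrix.cons_val_one]
        unfold sg1 sg2
        field_simp
        ring
      rw [e, mul_eq_zero, mul_eq_zero, sub_eq_zero, sub_eq_zero, sub_eq_zero, or_assoc]
    rw [← key a b hab]
    refine zclosure_subset hC ?_ h1
    intro c hc
    rcases exists_Phi c with rfl | ⟨a', b', hab', rfl⟩
    · exact hS
    · exact (key a' b' hab').2 hc
  · apply diff_finite_of
    apply closure_core (n := n) (lam := lam)
    rintro ⟨a, b⟩ ⟨hab, h1, h2⟩
    refine ⟨hab, fun h => h2 ((perSet_iff_two hn hab).2 h), fun P hP => ?_⟩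
    obtain ⟨C, hC, hS, hCP⟩ := closed_of_poly P
    rw [← hCP a b hab]
    refine zclosure_subset hC ?_ h1
    intro c hc
    rcases exists_Phi c with rfl | ⟨a', b', hab', rfl⟩
    · exact hS
    · exact (hCP a' b' hab').2 (hP a' b' hab' ((perSet_iff_two hn hab').1 hc))

/-- fixed points: two multipliers -/
theorem one_one_finite {lam lam' : ℂ} (hne : lam ≠ lam') :
    (perSet 1 lam ∩ perSet 1 lam').Finite := by
  obtain ⟨x, hx⟩ : ∃ x, x = (2 - lam - lam') / (1 - lam * lam') := ⟨_, rfl⟩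
  have hfin : ({(lam, lam'), (lam', lam), (lam, x), (lam', x), (x, lam), (x, lam')} :
      Set (ℂ × ℂ)).Finite := by simp
  refine ((hfin.image Phi).union (Set.finite_singleton (Quot.mk _ QMap.S))).subset ?_
  rintro c ⟨h1, h2⟩
  rcases exists_Phi c with rfl | ⟨a, b, hab, rfl⟩
  · exact Or.inr rfl
  · left
    refine ⟨(a, b), ?_, rfl⟩
    rw [perSet_iff_one hab] at h1 h2
    have hd : 1 - a * b ≠ 0 := sub_ne_zero.2 (Ne.symm hab)
    -- solving for the third multiplier
    have key : ∀ a b y w : ℂ, 1 - a * b ≠ 0 → w = a → y = (2 - a - b) / (1 - a * b) → w ≠ y →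
        b = (2 - w - y) / (1 - w * y) := by
      intro a b y w hd hw hy hne
      subst hw
      have h3 : y * (1 - w * b) = 2 - w - b := by rw [hy, div_mul_cancel₀ _ hd]
      have h4 : 1 - w * y ≠ 0 := by
        intro h0
        apply hne
        have h5 : w + y = 2 := by linear_combination h3 - b * h0
        have h6 : (w - y) ^ 2 = 0 := by linear_combination (w + y + 2) * h5 + 4 * h0
        exact sub_eq_zero.1 (pow_eq_zero_iff two_ne_zero |>.1 h6)
      rw [eq_div_iff h4]
      linear_combination h3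
    have e1 : (2 - b - a) / (1 - b * a) = (2 - a - b) / (1 - a * b) := by ring
    have e2 : (2 - lam' - lam) / (1 - lam' * lam) = (2 - lam - lam') / (1 - lam * lam') := by ring
    have hd' : 1 - b * a ≠ 0 := by rwa [mul_comm]
    simp only [Set.mem_insert_iff, Set.mem_singleton_iff, Prod.mk.injEq]
    rcases h1 with h1 | h1 | h1 <;> rcases h2 with h2 | h2 | h2
    · exact absurd (h1.trans h2.symm) hne
    · exact Or.inl ⟨h1.symm, h2.symm⟩
    · have := key a b lam' lam hd h1 h2 hne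
      rw [← hx] at this
      exact Or.inr (Or.inr (Or.inl ⟨h1.symm, this⟩))
    · exact Or.inr (Or.inl ⟨h2.symm, h1.symm⟩)
    · exact absurd (h1.trans h2.symm) hne
    · have := key b a lam' lam hd' h1 (by rw [e1]; exact h2) hne
      rw [← hx] at this
      exact Or.inr (Or.inr (Or.inr (Or.inr (Or.inl ⟨this, h1.symm⟩))))
    · have := key a b lam lam' hd h2 h1 hne.symm
      rw [e2, ← hx] at this
      exact Or.inr (Or.inr (Or.inr (Or.inl ⟨h2.symm, this⟩)))
    · have := key b a lam lam' hd' h2 (by rw [e1]; exact h1) hne.symm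
      rw [e2, ← hx] at this
      exact Or.inr (Or.inr (Or.inr (Or.inr (Or.inr ⟨this, h2.symm⟩))))
    · exact absurd (h1.trans h2.symm) hne

theorem final_closure {n m : ℕ} {lam lam' : ℂ} (hne : (n, lam) ≠ (m, lam'))
    (h : (PerStar n lam ∩ PerStar m lam').Infinite) :
    (n = 2 ∧ lam = -3 ∧ m = 3 ∧ lam' = 1) ∨ (n = 3 ∧ lam = 1 ∧ m = 2 ∧ lam' = -3) := by
  have h1 : (perSet n lam ∩ perSet m lam').Infinite := by
    intro hfin
    apply h
    refine ((hfin.union (PerStar_diff_finite n lam)).union (PerStar_diff_finite m lam')).subset ?_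
    rintro c ⟨hc1, hc2⟩
    by_cases h2 : c ∈ perSet n lam
    · by_cases h3 : c ∈ perSet m lam'
      · exact Or.inl (Or.inl ⟨h2, h3⟩)
      · exact Or.inr ⟨hc2, h3⟩
    · exact Or.inl (Or.inr ⟨hc1, h2⟩)
  have hcommon : ∀ {n m : ℕ} {lam lam' : ℂ}, (n, lam) ≠ (m, lam') → 2 ≤ m →
      (perSet n lam ∩ perSet m lam').Infinite → (common n m lam lam').Infinite := by
    intro n m lam lam' hne hm h hfin
    exact h ((hfin.union (Set.finite_singleton _)).subset (inter_subset_common hne hm))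
  rcases (show m = 0 ∨ m = 1 ∨ 2 ≤ m by omega) with rfl | rfl | hm
  · rw [perSet_zero, Set.inter_empty] at h1
    exact absurd Set.finite_empty h1
  · rcases (show n = 0 ∨ n = 1 ∨ 2 ≤ n by omega) with rfl | rfl | hn
    · rw [perSet_zero, Set.empty_inter] at h1
      exact absurd Set.finite_empty h1
    · exact absurd (one_one_finite fun h0 => hne (by rw [h0])) h1
    · rw [Set.inter_comm] at h1
      rcases final (hcommon hne.symm hn h1) with ⟨h2, h3, h4, h5⟩ | ⟨h2, h3, h4, h5⟩
      · exact Or.inr ⟨h4, h5, h2, h3⟩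
      · exact Or.inl ⟨h4, h5, h2, h3⟩
  · exact final (hcommon hne hm h1)

/-! ### formal cycles -/

theorem piece_finite (n : ℕ) (lam : ℂ) : {x : ℕ × ℂ | Piece n lam x.1 x.2}.Finite := by
  classical
  refine ((Set.finite_singleton (n, lam)).union
    ((range n).biUnion fun k => (primitiveRoots (n / k) ℂ).image fun mu => (k, mu)).finite_toSet).subset ?_
  rintro ⟨k, mu⟩ (⟨h1, h2⟩ | ⟨_, hk, hkn, hmu⟩)
  · simp only at h1 h2
    subst h1 h2
    exact Or.inl rfl
  · right
    simp only at hk hkn hmu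
    have hk0 : 0 < k := by
      rcases Nat.eq_zero_or_pos k with rfl | h
      · rw [zero_dvd_iff] at hk
        omega
      · exact h
    have hpos : 0 < n / k := Nat.div_pos hkn.le hk0
    simp only [coe_biUnion, coe_range, Set.mem_Iio, coe_image, Set.mem_iUnion, Set.mem_image,
      mem_coe, Prod.mk.injEq]
    exact ⟨k, hkn, mu, (mem_primitiveRoots hpos).2 hmu, rfl, rfl⟩

theorem PerCurve_subset (n : ℕ) (lam : ℂ) {c : M2} (hc : c ∈ PerCurve n lam) :
    ∃ x : ℕ × ℂ, Piece n lam x.1 x.2 ∧ c ∈ PerStar x.1 x.2 := by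
  have e : {c | ∃ k mu, Piece n lam k mu ∧ c ∈ perSet k mu}
      = ⋃ x ∈ {x : ℕ × ℂ | Piece n lam x.1 x.2}, perSet x.1 x.2 := by
    ext c
    simp only [Set.mem_ofPred_eq, Set.mem_iUnion, Prod.exists, exists_prop]
  rw [PerCurve, e] at hc
  have := zclosure_biUnion _ (piece_finite n lam) _ hc
  simp only [Set.mem_iUnion, Set.mem_ofPred_eq, exists_prop] at this
  exact this

theorem piece_two {n : ℕ} {lam : ℂ} (h : Piece n lam 2 (-3)) : n = 2 ∧ lam = -3 := by
  rcases h with ⟨h1, h2⟩ | ⟨_, hk, hkn, hmu⟩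
  · exact ⟨h1.symm, h2.symm⟩
  · exfalso
    have h1 := hmu.pow_eq_one
    have h2 : 0 < n / 2 := Nat.div_pos hkn.le (by norm_num)
    have h3 := congrArg norm h1
    rw [norm_pow, norm_neg, norm_one] at h3
    have h4 : ‖(3 : ℂ)‖ = 3 := by simp
    rw [h4] at h3
    have h5 := one_lt_pow₀ (show (1 : ℝ) < 3 by norm_num) h2.ne'
    linarith

theorem piece_three {n : ℕ} {lam : ℂ} (h : Piece n lam 3 1) : n = 3 ∧ lam = 1 := by
  rcases h with ⟨h1, h2⟩ | ⟨_, hk, hkn, hmu⟩
  · exact ⟨h1.symm, h2.symm⟩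
  · exfalso
    have h1 : n / 3 = 1 := hmu.unique (IsPrimitiveRoot.one)
    obtain ⟨r, rfl⟩ := hk
    rw [Nat.mul_div_cancel_left _ (by norm_num)] at h1
    omega

/-- apart from the trivial common components the intersection is finite -/
theorem final_formal {n m : ℕ} {lam lam' : ℂ}
    (h : ((PerCurve n lam ∩ PerCurve m lam') \
      {c | ∃ k mu, Piece n lam k mu ∧ Piece m lam' k mu ∧ c ∈ PerStar k mu}).Infinite) :
    (n = 2 ∧ lam = -3 ∧ m = 3 ∧ lam' = 1) ∨ (n = 3 ∧ lam = 1 ∧ m = 2 ∧ lam' = -3) := by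
  by_contra hcon
  apply h
  have hfin : (⋃ x ∈ {x : ℕ × ℂ | Piece n lam x.1 x.2}, ⋃ y ∈ {y : ℕ × ℂ | Piece m lam' y.1 y.2},
      {c | x ≠ y ∧ c ∈ PerStar x.1 x.2 ∩ PerStar y.1 y.2}).Finite := by
    refine (piece_finite n lam).biUnion fun x hx => (piece_finite m lam').biUnion fun y hy => ?_
    by_contra hinf
    by_cases hxy : x = y
    · apply hinf
      convert Set.finite_empty
      ext c
      simp [hxy]
    · have h1 : (PerStar x.1 x.2 ∩ PerStar y.1 y.2).Infinite := by
        intro h2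
        exact hinf (h2.subset fun c hc => hc.2)
      apply hcon
      obtain ⟨k, mu⟩ := x
      obtain ⟨l, nu⟩ := y
      have hx' : Piece n lam k mu := hx
      have hy' : Piece m lam' l nu := hy
      rcases final_closure hxy h1 with ⟨rfl, rfl, rfl, rfl⟩ | ⟨rfl, rfl, rfl, rfl⟩
      · obtain ⟨h3, h4⟩ := piece_two hx'
        obtain ⟨h5, h6⟩ := piece_three hy'
        exact Or.inl ⟨h3, h4, h5, h6⟩
      · obtain ⟨h3, h4⟩ := piece_three hx'
        obtain ⟨h5, h6⟩ := piece_two hy'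
        exact Or.inr ⟨h3, h4, h5, h6⟩
  refine hfin.subset ?_
  rintro c ⟨⟨hc1, hc2⟩, hc3⟩
  obtain ⟨x, hx, hcx⟩ := PerCurve_subset n lam hc1
  obtain ⟨y, hy, hcy⟩ := PerCurve_subset m lam' hc2
  simp only [Set.mem_iUnion]
  refine ⟨x, hx, y, hy, ?_, hcx, hcy⟩
  rintro rfl
  exact hc3 ⟨x.1, x.2, hx, hy, hcx⟩

end Pool.Agent.helper56.P3
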