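import Pool.Agent.helper56.Per.Final

/-!
# P3: definitions for the full solution of the common component problem
-/

namespace Pool.Agent.helper56.P3

open Finset Pool.Agent.helper56.Per

section Cycles

variable {K : Type*} [Field K]

/-- indices with the same value agree modulo `n` (together with `n`-periodicity: exact period) -/
def Exact (n : ℕ) (z : ℕ → K) : Prop := ∀ i j, z i = z j → i % n = j % n

/-- A cycle of exact period `n` and multiplier `lam` of the map
`W ↦ (W + 1/W + (b - 1 - c^2)/c)/b`, i.e. of the normal form `z ↦ z (z + a)/(b z + 1)`,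
`c^2 = 1 - a b`, in the coordinate `W = (b z + 1)/c` (critical points `±1`, pole `0`, fixed point
`∞` of multiplier `b`, fixed point `1/c` of multiplier `a`). -/
structure WCyc (b c : K) (n : ℕ) (lam : K) (W : ℕ → K) : Prop where
  npos : 0 < n
  b0 : b ≠ 0
  c0 : c ≠ 0
  ne0 : ∀ i, W i ≠ 0
  ne1 : ∀ i, c * W i ≠ 1
  step : ∀ i, b * c * W (i + 1) * W i = c * W i ^ 2 + c + (b - 1 - c ^ 2) * W i
  per : ∀ i, W (i + n) = W i
  inj : Exact n W
  mul : ∏ i ∈ range n, (W i ^ 2 - 1) = lam * b ^ n * ∏ i ∈ range n, W i ^ 2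

/-- the pair function in normal form coordinates -/
noncomputable def EN (a b z y : K) : K :=
  (1 - a * b) * (z - y) ^ 2 / ((b * z ^ 2 + 2 * z + a) * (b * y ^ 2 + 2 * y + a))

/-- the pair function in the `W`-coordinate -/
noncomputable def EW (W W' : K) : K := (W - W') ^ 2 / ((W ^ 2 - 1) * (W' ^ 2 - 1))

/-- two disjoint cycles of exact periods `n`, `m`, with product of all pair functions `X` -/
def QX (n m : ℕ) (L L' X : K) (a b : K) : Prop :=
  ∃ z y : ℕ → K, NCyc a b n L z ∧ NCyc a b m L' y ∧ Exact n z ∧ Exact m y ∧ (∀ i j, z i ≠ y j) ∧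
    ∏ i ∈ range n, ∏ j ∈ range m, EN a b (z i) (y j) = X

/-- `(1 - b^{-j})/c` -/
noncomputable def TT (b c : K) (j : ℕ) : K := (1 - b⁻¹ ^ j) / c

/-- `c` times the centre of the outer rotation -/
noncomputable def Us (b c : K) : K := 1 - c ^ 2 / (b - 1)

/-- the orbit of the critical point `ε = ±1` in the `W`-coordinate -/
noncomputable def crit (b c ε : K) : ℕ → K
  | 0 => ε
  | l + 1 => (crit b c ε l + (crit b c ε l)⁻¹ + (b - 1 - c ^ 2) / c) / b

/-- the `G_t`-orbit of `w` (`G_t(w) = w + 1/w + t`) reaches `0` after exactly `ℓ` steps -/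
def Hits (w t : K) (ℓ : ℕ) : Prop :=
  ∃ x : ℕ → K, x 0 = w ∧ (∀ j < ℓ, x j ≠ 0 ∧ x (j + 1) = x j + (x j)⁻¹ + t) ∧ x ℓ = 0

end Cycles

section Val

variable {K : Type*} [Field K] {Γ : Type*} [LinearOrderedCommGroupWithZero Γ]

/-- the degenerate situation `a b → 1`, `x₃ → ∞` -/
structure Ctx (v : Valuation K Γ) (b c : K) : Prop where
  vb : v b = 1
  vc : v c < 1
  c0 : c ≠ 0
  hbc : v c < v (b - 1)

/-- residue characteristic zero -/
def CharZ (v : Valuation K Γ) : Prop := ∀ j : ℕ, j ≠ 0 → v (j : K) = 1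

/-- the residue of `b` is a primitive `q`-th root of unity, and `TT b c q` is integral -/
structure Rot (v : Valuation K Γ) (b c : K) (q : ℕ) : Prop where
  two_le : 2 ≤ q
  one : ∀ j, 0 < j → j < q → v (b ^ j - 1) = 1
  le : v (b ^ q - 1) ≤ v c

/-- type O: all points are outside -/
def TyO (v : Valuation K Γ) (W : ℕ → K) : Prop := ∀ i, 1 < v (W i)

/-- type I: no holes, some central point, no point near a critical point -/
def TyI (v : Valuation K Γ) (W : ℕ → K) : Prop :=
  (∀ i, 1 ≤ v (W i)) ∧ (∃ i, v (W i) = 1) ∧ ∀ i, v (W i) = 1 → v (W i ^ 2 - 1) = 1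

/-- type II: there is a hole -/
def TyII (v : Valuation K Γ) (W : ℕ → K) : Prop := ∃ i, v (W i) < 1

/-- first return time to the disc `v W ≤ 1` -/
def IsGap (v : Valuation K Γ) (W : ℕ → K) (i s : ℕ) : Prop :=
  0 < s ∧ v (W (i + s)) ≤ 1 ∧ ∀ l, 0 < l → l < s → 1 < v (W (i + l))

/-- the 2-adic situation: `b` reduces to a primitive `q0`-th root of unity, `q0` odd -/
structure DCtx (v : Valuation K Γ) (b c : K) (q0 : ℕ) : Prop where
  v2 : v 2 < 1
  vb : v b = 1
  vc : v c < 1
  c0 : c ≠ 0
  odd : Odd q0
  one : ∀ j, ¬ q0 ∣ j → v (b ^ j - 1) = 1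
  lt : v (b ^ q0 - 1) < 1

/-- the Gauss-type situation: `b` reduces to something which is not a root of unity -/
structure GCtx (v : Valuation K Γ) (b c : K) : Prop where
  vb : v b = 1
  vc : v c < 1
  c0 : c ≠ 0
  one : ∀ j, 0 < j → v (b ^ j - 1) = 1

end Val

section Places

variable (k : Type*) {K : Type*} [Field k] [Field K] [Algebra k K]

/-- transcendence degree at most one -/
def TD1 (k K : Type*) [Field k] [Field K] [Algebra k K] : Prop :=
  ∀ u x : K, ¬ AlgebraicIndependent k ![u, x]

/-- a place: a valuation ring containing `k`, with residue field `k` -/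
structure IsPl (P : ValuationSubring K) : Prop where
  cst : ∀ α : k, α ≠ 0 → P.valuation (algebraMap k K α) = 1
  res : ∀ x : K, P.valuation x ≤ 1 → ∃ α : k, P.valuation (x - algebraMap k K α) < 1

/-- a mixed end: `W` of type I, `W'` of type II, rotation order `q` -/
structure Mixed (P : ValuationSubring K) (b c : K) (W W' : ℕ → K) (q : ℕ) : Prop where
  pl : IsPl k P
  ctx : Ctx P.valuation b c
  rot : Rot P.valuation b c q
  I : TyI P.valuation W
  II : TyII P.valuation W'

end Places

section Base

variable {k K : Type*} [Field k] [Field K] [Algebra k K]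

/-- `O[g]` -/
def A0 (O : ValuationSubring k) (g : K) : Subring K :=
  Subring.closure ((algebraMap k K '' (O : Set k)) ∪ {g})

/-- the integral closure of `O[g]` in `K` -/
def Bp (O : ValuationSubring k) (g : K) : Subring K := (integralClosure (A0 O g) K).toSubring

/-- the base situation for the maximum principle -/
structure Base (O : ValuationSubring k) (g : K) (ν0 : ValuationSubring K) : Prop where
  ext : Ext O ν0.valuation
  mem : g ∈ ν0
  nc : g ∉ Set.range (algebraMap k K)
  rank : ∀ O' : ValuationSubring k, O ≤ O' → O' = O ∨ O' = ⊤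

/-- the localization of `Bp` at the centre of `ν0` -/
def Loc (O : ValuationSubring k) (g : K) (ν0 : ValuationSubring K) : Subring K where
  carrier := {x | ∃ s ∈ Bp O g, ν0.valuation s = 1 ∧ s * x ∈ Bp O g}
  mul_mem' := by
    rintro x y ⟨s, hs, h1, h2⟩ ⟨t, ht, h3, h4⟩
    refine ⟨s * t, mul_mem hs ht, by rw [map_mul, h1, h3, one_mul], ?_⟩
    rw [show s * t * (x * y) = (s * x) * (t * y) by ring]
    exact mul_mem h2 h4
  one_mem' := ⟨1, one_mem _, by rw [map_one], by rw [one_mul]; exact one_mem _⟩
  add_mem' := by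
    rintro x y ⟨s, hs, h1, h2⟩ ⟨t, ht, h3, h4⟩
    refine ⟨s * t, mul_mem hs ht, by rw [map_mul, h1, h3, one_mul], ?_⟩
    rw [show s * t * (x + y) = t * (s * x) + s * (t * y) by ring]
    exact add_mem (mul_mem ht h2) (mul_mem hs h4)
  zero_mem' := ⟨1, one_mem _, by rw [map_one], by rw [mul_zero]; exact zero_mem _⟩
  neg_mem' := by
    rintro x ⟨s, hs, h1, h2⟩
    exact ⟨s, hs, h1, by rw [mul_neg]; exact neg_mem h2⟩

/-- `ν` dominates `Loc O g ν0` -/
def Dom (O : ValuationSubring k) (g : K) (ν0 ν : ValuationSubring K) : Prop :=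
  Bp O g ≤ ν.toSubring ∧ ∀ x ∈ Bp O g, (ν.valuation x < 1 ↔ ν0.valuation x < 1)

/-- `g` is residually transcendental at `ν` -/
def RT (O : ValuationSubring k) (g : K) (ν : ValuationSubring K) : Prop :=
  ∀ p : Polynomial k, (∀ i, O.valuation (p.coeff i) ≤ 1) → (∃ i, O.valuation (p.coeff i) = 1) →
    ν.valuation (Polynomial.aeval g p) = 1

/-- Gauss-type valuations containing `Loc` -/
structure IsGauss (O : ValuationSubring k) (g : K) (ν0 ν : ValuationSubring K) : Prop where
  le : Loc O g ν0 ≤ ν.toSubring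
  ext : Ext O ν.valuation
  rt : RT O g ν

/-- places of `K` over `k` containing `Loc` -/
structure IsDel (O : ValuationSubring k) (g : K) (ν0 P : ValuationSubring K) : Prop where
  le : Loc O g ν0 ≤ P.toSubring
  pl : IsPl k P

/-- the composite of a place with a valuation of `k` -/
def comp (P : ValuationSubring K) (hP : IsPl k P) (O : ValuationSubring k) :
    ValuationSubring K where
  carrier := {x | ∃ α ∈ O, P.valuation (x - algebraMap k K α) < 1}
  mul_mem' := by
    rintro x y ⟨α, hα, h1⟩ ⟨β, hβ, h2⟩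
    refine ⟨α * β, mul_mem hα hβ, ?_⟩
    have e : x * y - algebraMap k K (α * β)
        = (x - algebraMap k K α) * ((y - algebraMap k K β) + algebraMap k K β)
          + algebraMap k K α * (y - algebraMap k K β) := by
      rw [map_mul]; ring
    have hle : ∀ γ : k, P.valuation (algebraMap k K γ) ≤ 1 := by
      intro γ
      by_cases h : γ = 0
      · rw [h, map_zero, map_zero]; exact zero_le_one
      · exact (hP.cst γ h).le
    rw [e]
    apply Valuation.map_add_lt
    · rw [map_mul]
      exact lt1_of_lt_of_le h1 (P.valuation.map_add_le h2.le (hle β))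
    · rw [map_mul]
      exact lt1_of_le_of_lt (hle α) h2
  one_mem' := ⟨1, one_mem _, by rw [map_one, sub_self, map_zero]; exact zero_lt_one⟩
  add_mem' := by
    rintro x y ⟨α, hα, h1⟩ ⟨β, hβ, h2⟩
    refine ⟨α + β, add_mem hα hβ, ?_⟩
    rw [map_add, show x + y - (algebraMap k K α + algebraMap k K β)
      = (x - algebraMap k K α) + (y - algebraMap k K β) by ring]
    exact Valuation.map_add_lt _ h1 h2
  zero_mem' := ⟨0, zero_mem _, by rw [map_zero, sub_self, map_zero]; exact zero_lt_one⟩
  neg_mem' := by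
    rintro x ⟨α, hα, h1⟩
    refine ⟨-α, neg_mem hα, ?_⟩
    rw [map_neg, show -x - -algebraMap k K α = -(x - algebraMap k K α) by ring, Valuation.map_neg]
    exact h1
  mem_or_inv_mem' := by
    intro x
    by_cases hx : P.valuation x ≤ 1
    · obtain ⟨α, hα⟩ := hP.res x hx
      by_cases hO : α ∈ O
      · exact Or.inl ⟨α, hO, hα⟩
      · right
        have hα0 : α ≠ 0 := by rintro rfl; exact hO (zero_mem _)
        refine ⟨α⁻¹, (O.mem_or_inv_mem α).resolve_left hO, ?_⟩
        have h1 := hP.cst α hα0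
        have h2 : P.valuation x = 1 := by
          have e : x = algebraMap k K α + (x - algebraMap k K α) := by ring
          rw [e, Valuation.map_add_eq_of_lt_left _ (by rwa [h1]), h1]
        have hx0 : x ≠ 0 := by rintro rfl; rw [map_zero] at h2; exact zero_ne_one h2
        have hα0' : algebraMap k K α ≠ 0 := (_root_.map_ne_zero _).2 hα0
        have e : x⁻¹ - algebraMap k K α⁻¹
            = -(x - algebraMap k K α) * (x⁻¹ * (algebraMap k K α)⁻¹) := by
          rw [map_inv₀]; field_simp; ring
        rw [e, map_mul, Valuation.map_neg, map_mul, map_inv₀, map_inv₀, h1, h2, inv_one, mul_one,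
          mul_one]
        exact hα
    · right
      refine ⟨0, zero_mem _, ?_⟩
      rw [map_zero, sub_zero, map_inv₀]
      exact inv_lt_one_of_one_lt₀ (not_le.1 hx)

/-- The global situation: `K/k` of transcendence degree one, three fixed point multipliers `a`,
`b`, `x₃`, not constant, two disjoint cycles of constant multipliers. -/
structure Glob (n m : ℕ) (lam lam' : k) (a b x3 c : K) (W W' : ℕ → K) : Prop where
  td : TD1 k K
  ts : TS (Q2 n m (algebraMap k K lam) (algebraMap k K lam')) a b x3
  hs : a + b + x3 ∉ Set.range (algebraMap k K)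
  hc : c ^ 2 = 1 - a * b
  hW : WCyc b c n (algebraMap k K lam) W
  hW' : WCyc b c m (algebraMap k K lam') W'
  ne : ∀ i j, W i ≠ W' j
  l0 : lam ≠ 0
  l0' : lam' ≠ 0

end Base

end Pool.Agent.helper56.P3
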