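import Pool.Agent.helper56.P3.Defs

/-!
# P3: more definitions
-/

namespace Pool.Agent.helper56.P3

open Finset Pool.Agent.helper56.Per

section D

variable {K : Type*} [Field K] {Γ : Type*} [LinearOrderedCommGroupWithZero Γ]

/-- a family of radii around a type II cycle -/
structure Disc (v : Valuation K Γ) (c : K) (n : ℕ) (W : ℕ → K) (ε : K) (r : ℕ → Γ)
    (i0 : ℕ) : Prop where
  pos : ∀ i, 0 < r i
  per : ∀ i, r (i + n) = r i
  recr : ∀ i, r (i + 1) * v (W i) ^ 2 = r i * v (W i ^ 2 - 1)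
  near_le : ∀ i, v (W i) = 1 → v (W i ^ 2 - 1) < 1 → r i ≤ v (W i - ε)
  i0_one : v (W i0) = 1
  i0_near : v (W i0 ^ 2 - 1) < 1
  i0_eq : r i0 = v (W i0 - ε)
  lt_one : ∀ i, r i < 1
  hole : ∀ i, v (W i) < 1 → r i < v c ^ 2

/-- hypotheses bundled: `W` is a type II cycle near `ε` only -/
structure TwoCyc (v : Valuation K Γ) (b c : K) (q n : ℕ) (lam ε : K) (W : ℕ → K) : Prop where
  ctx : Ctx v b c
  cz : CharZ v
  rot : Rot v b c q
  cyc : WCyc b c n lam W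
  l1 : v lam = 1
  II : TyII v W
  e2 : ε ^ 2 = 1
  near : ∀ i, v (W i) = 1 → v (W i ^ 2 - 1) < 1 → v (W i - ε) < 1

/-- coordinate change to the symmetric coordinate -/
noncomputable def yc (τ W : K) : K := (W - τ) / (1 - τ * W)

/-- the second order coefficient of the return map -/
noncomputable def hfun (q : ℕ) (t J : K) : K :=
  -t * J ^ 2 - (t ^ 2 - ((q : K) ^ 2 - 4) / 3) * J + ((q : K) ^ 2 - 1) * t / 6

/-- the symmetric coordinate -/
structure Sym (v : Valuation K Γ) (b c τ β S : K) (q : ℕ) : Prop where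
  t0 : τ ≠ 0
  vt : v τ < 1
  ht : c * (1 + τ ^ 2) = 2 * τ
  hβ : β * (1 - τ ^ 2) = b * (1 + τ ^ 2)
  hS : β⁻¹ ^ q * (1 + τ * S) = 1 - τ * S

end D

section R

variable {k K : Type*} [Field k] [Field K] [Algebra k K]

/-- facts collected in the repelling case -/
structure Rep (O : ValuationSubring k) (g : K) (ν0 : ValuationSubring K) (b c : K) (q0 L : ℕ)
    (W W' : ℕ → K) : Prop where
  base : Base O g ν0
  h2 : O.valuation 2 < 1
  dctx : ∀ ν, Dom O g ν0 ν → DCtx ν.valuation b c q0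
  TL : ∀ ν, Dom O g ν0 ν → ∀ l ≤ L, 1 < ν.valuation (TT b c (q0 * 2 ^ l))
  hZ : ∀ ν, Dom O g ν0 ν → ∀ i, ∀ l < L, 1 < ν.valuation (W i * TT b c (q0 * 2 ^ l))
  hZL : ∀ ν, Dom O g ν0 ν → ∀ i, ¬ ν.valuation (W i * TT b c (q0 * 2 ^ L)) < 1
  del : ∀ P, IsDel O g ν0 P → P.valuation (TT b c (q0 * 2 ^ L)) ≤ 1
  gctx : ∀ ν, IsGauss O g ν0 ν → GCtx ν.valuation b c
  rtb : ∀ ν, IsGauss O g ν0 ν → RT O b ν
  hY : ∃ j0, ∀ ν, Dom O g ν0 ν → ν.valuation (W' j0 * TT b c (q0 * 2 ^ L)) < 1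
  nearY : ∃ j1, ν0.valuation (W' j1) = 1

end R

end Pool.Agent.helper56.P3
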