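import Pool.Agent.helper36.P3.Places
import Pool.Agent.helper96.P3.Gauss
import Pool.Agent.helper56.P3.Util

/-!
# P3: values of holes and outer points below a Gauss-type valuation
-/

namespace Pool.Agent.helper56.P3

open Finset Pool.Agent.helper56.Per

section

variable {K : Type*} [Field K] {b c : K} {n q0 : ℕ} {lam : K} {W : ℕ → K}
  {ν' ν : ValuationSubring K}

theorem val_le_of_le (hle : ν' ≤ ν) {x : K} (hx : ν'.valuation x ≤ 1) : ν.valuation x ≤ 1 := by
  rw [ValuationSubring.valuation_le_one_iff] at hx ⊢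
  exact hle hx

/-- closeness passes to a smaller valuation ring: `ν (x - y) < 1`, `ν y = 1` implies
`ν' x = ν' y` -/
theorem val_eq_of_close (hle : ν' ≤ ν) {x y : K} (h : ν.valuation (x - y) < 1)
    (hy : ν.valuation y = 1) : ν'.valuation x = ν'.valuation y := by
  have hy0 : y ≠ 0 := ne_zero_of_v_one hy
  have h1 : ν.valuation ((x - y) / y) < 1 := by rwa [map_div₀, hy, div_one]
  have h2 : ν'.valuation ((x - y) / y) < 1 := lt_of_le_of_lt' hle h1
  apply v_eq_of_sub_lt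
  rwa [map_div₀, div_lt_one₀ (zero_lt_iff.2 ((ν'.valuation.ne_zero_iff).2 hy0))] at h2

theorem one_sub_pow (b : K) (s : ℕ) {Γ : Type*} [LinearOrderedCommGroupWithZero Γ]
    (v : Valuation K Γ) : v (1 - b ^ s) = v (b ^ s - 1) := Valuation.map_sub_swap _ _ _

theorem hole_val (hle : ν' ≤ ν) (Gc : GCtx ν.valuation b c) (hb : ν'.valuation b = 1)
    (h : WCyc b c n lam W) {i s : ℕ} (hi : ν.valuation (W i) ≤ 1) (hs : IsGap ν.valuation W i s)
    (j : ℕ) :
    ν'.valuation (W i * TT b c j) * ν'.valuation (b ^ s - 1) = ν'.valuation (b ^ j - 1) := by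
  obtain ⟨_, h2⟩ := G_hole ν.valuation Gc h hi hs
  have h3 : ν.valuation (1 - b ^ s) = 1 := by rw [one_sub_pow]; exact Gc.one s hs.1
  have h4 := val_eq_of_close hle h2 h3
  rw [one_sub_pow] at h4
  rw [← h4, ← v_TT hb Gc.c0 j, ← map_mul, ← map_mul]
  congr 1
  have := h.ne0 i
  field_simp

theorem out_val (hle : ν' ≤ ν) (Gc : GCtx ν.valuation b c) (hb : ν'.valuation b = 1)
    (h : WCyc b c n lam W) {i s : ℕ} (hi : 1 < ν.valuation (W i)) (hs : IsGap ν.valuation W i s)
    {j : ℕ} (hj : 0 < j) :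
    ν'.valuation (W i / TT b c j) * ν'.valuation (b ^ j - 1) = ν'.valuation (b ^ s - 1) := by
  obtain ⟨_, h2⟩ := G_out ν.valuation Gc h hi hs
  have h3 : ν.valuation (1 - b ^ s) = 1 := by rw [one_sub_pow]; exact Gc.one s hs.1
  have h4 := val_eq_of_close hle h2 h3
  rw [one_sub_pow] at h4
  have hT : TT b c j ≠ 0 := by
    have h5 := v_TT Gc.vb Gc.c0 j
    rw [Gc.one j hj] at h5
    rintro h0
    rw [h0, map_zero, zero_mul] at h5
    exact zero_ne_one h5
  rw [← h4, ← v_TT hb Gc.c0 j, ← map_mul, ← map_mul]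
  congr 1
  field_simp

theorem v_T_gauss {v : Valuation K ν.ValueGroup} (Gc : GCtx v b c) {j : ℕ} (hj : 0 < j) :
    v (TT b c j) * v c = 1 := by
  rw [v_TT Gc.vb Gc.c0 j, Gc.one j hj]

end

section

variable {Γ : Type*} [LinearOrderedCommGroupWithZero Γ]

/-- comparison of powers -/
theorem pow_pow_le {β : Γ} (h0 : 0 < β) (h1 : β < 1) {l u : ℕ} :
    β ^ 2 ^ l ≤ β ^ 2 ^ u ↔ u ≤ l := by
  constructor
  · intro h
    by_contra hc
    rw [not_le] at hc
    have : β ^ 2 ^ u < β ^ 2 ^ l :=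
      pow_lt_pow_right_of_lt_one₀ h0 h1 (Nat.pow_lt_pow_right (by norm_num) hc)
    exact absurd h (not_le.2 this)
  · intro h
    exact pow_le_pow_right_of_le_one' h1.le (Nat.pow_le_pow_right (by norm_num) h)

theorem pow_pow_inj {β : Γ} (h0 : 0 < β) (h1 : β < 1) {l u : ℕ} (h : β ^ 2 ^ l = β ^ 2 ^ u) :
    l = u :=
  le_antisymm ((pow_pow_le h0 h1).1 h.ge) ((pow_pow_le h0 h1).1 h.le)

end

end Pool.Agent.helper56.P3
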