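import Pool.Agent.helper56.P3.RepStatus
import Pool.Agent.helper62.P3.RepTau

/-!
# P3: the repelling case, the period `n`
-/

namespace Pool.Agent.helper56.P3

open Finset Pool.Agent.helper56.Per

section

variable {k K : Type*} [Field k] [Field K] [Algebra k K] [IsAlgClosed k] [IsAlgClosed K]
  [CharZero k] [Algebra.IsAlgebraic ℚ k] {n m : ℕ} {lam lam' : k} {a b x3 c : K} {W W' : ℕ → K}
  {O : ValuationSubring k} {g : K} {ν0 : ValuationSubring K} {q0 L : ℕ}

omit [IsAlgClosed K] [CharZero k] [IsAlgClosed k] [Algebra.IsAlgebraic ℚ k] in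
theorem Rep.v2 (R : Rep O g ν0 b c q0 L W W') {ν : ValuationSubring K}
    (hν : IsGauss O g ν0 ν) : ν.valuation 2 < 1 := by
  have := (hν.ext.lt_one_iff 2).2 R.h2
  rwa [map_ofNat] at this

/-- values of `b^{q0 2^l u} - 1` at a dominating valuation below a Gauss-type one -/
theorem Rep.beta (R : Rep O g ν0 b c q0 L W W') {ν ν' : ValuationSubring K}
    (hν : IsGauss O g ν0 ν) (hν' : Dom O g ν0 ν') (hle : ν' ≤ ν) (l : ℕ) {u : ℕ} (hu : Odd u) :
    ν'.valuation (b ^ (q0 * 2 ^ l * u) - 1) = ν'.valuation (b ^ q0 - 1) ^ 2 ^ l :=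
  P3.beta hle (R.v2 hν) (R.gctx ν hν).one (R.dctx ν' hν').odd (R.dctx ν' hν').lt l hu

/-- all gaps of `W` at Gauss-type valuations are `q0 2^L` -/
theorem rep_gap (G : Glob n m lam lam' a b x3 c W W') (R : Rep O g ν0 b c q0 L W W')
    (hl : 1 < O.valuation lam) {ν : ValuationSubring K} (hν : IsGauss O g ν0 ν) {i s : ℕ}
    (hi : ν.valuation (W i) ≤ 1) (hs : IsGap ν.valuation W i s) : s = q0 * 2 ^ L := by
  obtain ⟨-, -, hgap⟩ := rep_tau G R hl
  obtain ⟨u, hu, rfl⟩ := hgap ν hν i s hi hs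
  by_contra hne
  have hu1 : u ≠ 1 := by rintro rfl; exact hne (mul_one _)
  have hu3 : 3 ≤ u := by
    obtain ⟨w, rfl⟩ := hu
    omega
  have hQ : 0 < q0 * 2 ^ L := by
    have h0 := (R.dctx ν0 (dom_self R.base)).odd.pos
    positivity
  obtain ⟨Q, hQe⟩ : ∃ Q, Q = q0 * 2 ^ L := ⟨_, rfl⟩
  rw [← hQe] at hs hQ
  -- the outer point at distance `2 Q` before the next hole
  obtain ⟨p, hp⟩ : ∃ p, p = i + Q * (u - 2) := ⟨_, rfl⟩
  have e1 : Q * u = Q * (u - 2) + 2 * Q := by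
    obtain ⟨w, rfl⟩ : ∃ w, u = w + 2 := ⟨u - 2, by omega⟩
    simp only [Nat.add_sub_cancel]
    ring
  have h0 : 0 < Q * (u - 2) := Nat.mul_pos hQ (by omega)
  have hpbig : 1 < ν.valuation (W p) := by
    rw [hp]
    exact hs.2.2 _ h0 (by omega)
  have hpgap : IsGap ν.valuation W p (2 * Q) := by
    refine ⟨by omega, ?_, fun l hl1 hl2 => ?_⟩
    · rw [hp, add_assoc, ← e1]; exact hs.2.1
    · rw [hp, add_assoc]
      exact hs.2.2 _ (by omega) (by omega)
  obtain ⟨ν', hle, hν'⟩ := exists_dom_le R.base hν.le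
  have Gc := R.gctx ν hν
  have D := R.dctx ν' hν'
  have hq0 : 0 < q0 := D.odd.pos
  have hb0 : 0 < ν'.valuation (b ^ q0 - 1) := beta_pos hq0 Gc
  have ev := out_val hle Gc D.vb G.hW hpbig hpgap hQ
  rw [hQe] at ev
  have b1 := R.beta hν hν' hle L odd_one
  rw [mul_one] at b1
  have b2 := R.beta hν hν' hle (L + 1) odd_one
  rw [mul_one, show q0 * 2 ^ (L + 1) = 2 * (q0 * 2 ^ L) by ring] at b2
  rw [b1, b2] at ev
  have hlt : ν'.valuation (W p / TT b c (q0 * 2 ^ L)) < 1 := by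
    by_contra hc
    rw [not_lt] at hc
    have h1 : ν'.valuation (b ^ q0 - 1) ^ 2 ^ (L + 1) < ν'.valuation (b ^ q0 - 1) ^ 2 ^ L :=
      pow_lt_pow_right_of_lt_one₀ hb0 D.lt (Nat.pow_lt_pow_right (by norm_num) (by omega))
    rw [← ev] at h1
    exact absurd h1 (not_lt.2 (le_mul_of_one_le_left' hc))
  have hTν : ∀ ν, IsGauss O g ν0 ν → 1 < ν.valuation (TT b c (q0 * 2 ^ L)) := by
    intro ν hν
    have Gc := R.gctx ν hν
    have h4 := v_T_gauss Gc (hQe ▸ hQ : 0 < q0 * 2 ^ L)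
    have hc0 : ν.valuation c ≠ 0 := (ν.valuation.ne_zero_iff).2 Gc.c0
    rw [eq_inv_of_mul_eq_one_left h4]
    exact (one_lt_inv₀ (zero_lt_iff.2 hc0)).2 Gc.vc
  have hgt : 1 < ν'.valuation (W p * TT b c (q0 * 2 ^ L)) := by
    apply gt_of_le_of_gt hle
    rw [map_mul]
    exact one_lt_mul'' hpbig (hTν ν hν)
  have hA : ∀ ν, Dom O g ν0 ν → ν.valuation (W p / TT b c (q0 * 2 ^ L)) < 1 := by
    rcases status_T' R G.hW hl p with h | h | h
    · exact h
    · exact absurd hlt (by rw [v_one_of_sub_one (h ν' hν')]; exact lt_irrefl _)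
    · exact absurd hlt (not_lt.2 (h ν' hν').le)
  have hB : ∀ ν, Dom O g ν0 ν → 1 < ν.valuation (W p * TT b c (q0 * 2 ^ L)) := by
    rcases status_T R G.hW le_rfl p with h | h | h
    · exact absurd hgt (not_lt.2 (h ν' hν').le)
    · exact absurd hgt (by rw [v_one_of_sub_one (h ν' hν')]; exact lt_irrefl _)
    · exact h
  refine (class_B G R hB hA).2 fun ν1 hν1 => ?_
  have Gc1 := R.gctx ν1 hν1
  -- `W p` is outer at `ν1`
  have hout : 1 < ν1.valuation (W p) := by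
    by_contra hc
    rw [not_lt] at hc
    obtain ⟨s1, hs1, _⟩ := G.hW.exists_gap ν1.valuation hc p
    obtain ⟨u1, hu1, rfl⟩ := hgap ν1 hν1 p s1 hc hs1
    obtain ⟨ν1', hle1, hν1'⟩ := exists_dom_le R.base hν1.le
    have D1 := R.dctx ν1' hν1'
    have e2 := hole_val hle1 Gc1 D1.vb G.hW hc hs1 (q0 * 2 ^ L)
    have b3 := R.beta hν1 hν1' hle1 L odd_one
    rw [mul_one] at b3
    rw [R.beta hν1 hν1' hle1 L hu1, b3] at e2
    have hb1 : 0 < ν1'.valuation (b ^ q0 - 1) := beta_pos hq0 Gc1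
    have e3 : ν1'.valuation (W p * TT b c (q0 * 2 ^ L)) = 1 :=
      mul_right_cancel₀ (pow_ne_zero _ hb1.ne') (by rw [e2, one_mul])
    exact absurd (hB ν1' hν1') (by rw [e3]; exact lt_irrefl _)
  obtain ⟨i1, hi1⟩ := exists_small (hν1.ext) Gc1.vb G.hW hl
  obtain ⟨s1, hs1, _⟩ := G.hW.exists_gap ν1.valuation hi1 p
  have e4 := (G_out ν1.valuation Gc1 G.hW hout hs1).1
  have e5 := v_T_gauss Gc1 (hQe ▸ hQ : 0 < q0 * 2 ^ L)
  have hc0 : ν1.valuation c ≠ 0 := (ν1.valuation.ne_zero_iff).2 Gc1.c0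
  rw [map_div₀, eq_inv_of_mul_eq_one_left e4, eq_inv_of_mul_eq_one_left e5]
  exact div_self (inv_ne_zero hc0)

theorem rep_n (G : Glob n m lam lam' a b x3 c W W') (R : Rep O g ν0 b c q0 L W W')
    (hl : 1 < O.valuation lam) :
    n = q0 * 2 ^ L ∧ ∀ ν, IsGauss O g ν0 ν → ∃ i0, ν.valuation (W i0) ≤ 1 ∧
      ∀ i, ν.valuation (W i) ≤ 1 → i % n = i0 % n := by
  obtain ⟨hex, -, -⟩ := rep_tau G R hl
  have hQ : 0 < q0 * 2 ^ L := by
    have h0 := (R.dctx ν0 (dom_self R.base)).odd.pos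
    positivity
  obtain ⟨Q, hQe⟩ : ∃ Q, Q = q0 * 2 ^ L := ⟨_, rfl⟩
  rw [← hQe] at hQ
  have hn0 : 0 < n := G.hW.npos
  have hgap : ∀ ν, IsGauss O g ν0 ν → ∀ i, ν.valuation (W i) ≤ 1 →
      IsGap ν.valuation W i Q ∧ Q ≤ n := by
    intro ν hν i hi
    obtain ⟨s, hs, hsn⟩ := G.hW.exists_gap ν.valuation hi i
    have : s = Q := by rw [hQe]; exact rep_gap G R hl hν hi hs
    rw [← this]
    exact ⟨hs, hsn⟩
  have hnQ : n = Q := by
    obtain ⟨ν, hν⟩ := hex
    have Gc := R.gctx ν hν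
    obtain ⟨i0, hi0⟩ := exists_small hν.ext Gc.vb G.hW hl
    obtain ⟨hg0, hQn⟩ := hgap ν hν i0 hi0
    have hfw : ∀ i j, ν.valuation (W i) ≤ 1 → ν.valuation (W (i + Q * j)) ≤ 1 := by
      intro i j hi
      induction j with
      | zero => simpa using hi
      | succ j ih =>
        have := (hgap ν hν _ ih).1.2.1
        rwa [add_assoc, ← Nat.mul_succ] at this
    have hbw : ∀ i, ν.valuation (W (i + Q)) ≤ 1 → ν.valuation (W i) ≤ 1 := by
      intro i hi
      have h1 := hfw (i + Q) (n - 1) hi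
      have h2 : i + Q + Q * (n - 1) = i + Q * n := by
        obtain ⟨w, rfl⟩ : ∃ w, n = w + 1 := ⟨n - 1, by omega⟩
        simp only [Nat.add_sub_cancel]
        ring
      rwa [h2, per_mul G.hW.per] at h1
    refine le_antisymm ?_ hQn
    by_contra hlt
    rw [not_le] at hlt
    have hnd : ¬ n ∣ Q := fun h => absurd (Nat.le_of_dvd hQ h) (not_le.2 hlt)
    have hprod := G.hW.shift_prod hnd
    have hval : ∀ i, ν.valuation (W i) ≤ 1 → ν.valuation (W i) = ν.valuation c := fun i hi =>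
      (G_hole ν.valuation Gc G.hW hi (hgap ν hν i hi).1).1
    have hc0 : ν.valuation c ≠ 0 := (ν.valuation.ne_zero_iff).2 Gc.c0
    have hfac : ∀ i, 1 ≤ ν.valuation (1 - (W (i + Q) * W i)⁻¹) ∧ (ν.valuation (W i) ≤ 1 →
        1 < ν.valuation (1 - (W (i + Q) * W i)⁻¹)) := by
      intro i
      by_cases hi : ν.valuation (W i) ≤ 1
      · have h1 := hval i hi
        have h2 := hval (i + Q) (hgap ν hν i hi).1.2.1
        have h3 : 1 < ν.valuation (W (i + Q) * W i)⁻¹ := by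
          rw [map_inv₀, map_mul, h1, h2]
          apply (one_lt_inv₀ (zero_lt_iff.2 (mul_ne_zero hc0 hc0))).2
          exact lt1_of_lt_of_le Gc.vc Gc.vc.le
        have h4 : ν.valuation (1 - (W (i + Q) * W i)⁻¹) = ν.valuation (W (i + Q) * W i)⁻¹ := by
          rw [Valuation.map_sub_swap]
          apply Valuation.map_sub_eq_of_lt_left
          rwa [map_one]
        rw [h4]
        exact ⟨h3.le, fun _ => h3⟩
      · have hi' := hi
        rw [not_le] at hi
        have h2 : 1 < ν.valuation (W (i + Q)) := by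
          by_contra hc
          exact hi' (hbw i (not_lt.1 hc))
        have h3 : ν.valuation (W (i + Q) * W i)⁻¹ < 1 := by
          apply v_inv_lt_one
          rw [map_mul]
          exact one_lt_mul'' h2 hi
        have h4 : ν.valuation (1 - (W (i + Q) * W i)⁻¹) = 1 := by
          rw [Valuation.map_sub_eq_of_lt_left, map_one]
          rwa [map_one]
        rw [h4]
        exact ⟨le_rfl, fun h => absurd h hi'⟩
    have h5 : ν.valuation (∏ i ∈ range n, (1 - (W (i + Q) * W i)⁻¹)) = 1 := by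
      rw [hprod, map_pow, Gc.vb, one_pow]
    have h6 : 1 < ν.valuation (∏ i ∈ range n, (1 - (W (i + Q) * W i)⁻¹)) := by
      rw [map_prod]
      have hi0' : ν.valuation (W (i0 % n)) ≤ 1 := by
        have := per_mul G.hW.per (i0 % n) (i0 / n)
        rw [Nat.mod_add_div' i0 n] at this
        rwa [← this]
      have hmem : i0 % n ∈ range n := mem_range.2 (Nat.mod_lt _ hn0)
      rw [← mul_prod_erase _ _ hmem]
      have h7 : 1 ≤ ∏ x ∈ (range n).erase (i0 % n), ν.valuation (1 - (W (x + Q) * W x)⁻¹) :=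
        one_le_prod'' (fun i => (hfac i).1)
      exact ((hfac _).2 hi0').trans_le (le_mul_of_one_le_right' h7)
    rw [h5] at h6
    exact absurd h6 (lt_irrefl _)
  refine ⟨by rw [hnQ, hQe], fun ν hν => ?_⟩
  have Gc := R.gctx ν hν
  obtain ⟨i0, hi0⟩ := exists_small hν.ext Gc.vb G.hW hl
  refine ⟨i0, hi0, fun i hi => ?_⟩
  obtain ⟨hg0, -⟩ := hgap ν hν i0 hi0
  obtain ⟨l, hl'⟩ : ∃ l, l = (i + i0 * n - i0) % n := ⟨_, rfl⟩
  have h1 : i0 ≤ i0 * n := Nat.le_mul_of_pos_right _ hn0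
  have h2 : i0 + l + (i + i0 * n - i0) / n * n = i + i0 * n := by
    have := Nat.mod_add_div' (i + i0 * n - i0) n
    omega
  have h3 : W (i0 + l) = W i := by
    rw [← per_mul G.hW.per (i0 + l) ((i + i0 * n - i0) / n), h2, per_mul G.hW.per]
  have h4 : l = 0 := by
    by_contra h0
    have h5 := hg0.2.2 l (by omega) (by rw [hl', ← hnQ]; exact Nat.mod_lt _ hn0)
    rw [h3] at h5
    exact absurd h5 (not_lt.2 hi)
  rw [h4, add_zero] at h3
  exact G.hW.inj _ _ h3.symm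

end

end Pool.Agent.helper56.P3
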