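import Pool.Agent.helper56.P3.HoleVal
import Pool.Agent.helper8.P3.Dom
import Pool.Agent.helper91.P3.Dyadic

/-!
# P3: statuses are constant
-/

namespace Pool.Agent.helper56.P3

open Finset Pool.Agent.helper56.Per

section

variable {k K : Type*} [Field k] [Field K] [Algebra k K] [IsAlgClosed k] [IsAlgClosed K]
  [CharZero k] [Algebra.IsAlgebraic ℚ k] {n m : ℕ} {lam lam' : k} {a b x3 c : K} {W W' : ℕ → K}
  {O : ValuationSubring k} {g : K} {ν0 : ValuationSubring K} {q0 L : ℕ}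

omit [IsAlgClosed K] [CharZero k] [Algebra.IsAlgebraic ℚ k] in
/-- the second multiplier is large, too -/
theorem Glob.large' (G : Glob n m lam lam' a b x3 c W W') (hl : 1 < O.valuation lam) :
    1 < O.valuation lam' := by
  by_contra h
  rw [not_lt] at h
  have hT' : TS (Q2 m n (algebraMap k K lam') (algebraMap k K lam)) a b x3 :=
    G.ts.mono fun _ _ h => h.symm
  exact absurd (two_int hT' G.hs O h) (not_le.2 hl)

/-- at a dominating valuation a repelling cycle has a small point -/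
theorem exists_small {ν : ValuationSubring K} {N : ℕ} {l : k} {X : ℕ → K}
    (hE : Ext O ν.valuation) (D : ν.valuation b = 1)
    (hX : WCyc b c N (algebraMap k K l) X) (hl : 1 < O.valuation l) :
    ∃ i, ν.valuation (X i) ≤ 1 := by
  by_contra hc
  push Not at hc
  have h1 := hX.lam_eq_of_out ν.valuation D hc
  exact absurd ((hE.one_lt_iff l).2 hl) (by rw [h1]; exact lt_irrefl _)

/-- statuses are constant (finite side) -/
theorem status_T (R : Rep O g ν0 b c q0 L W W') {N : ℕ} {l : K} {X : ℕ → K}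
    (hX : WCyc b c N l X) {l' : ℕ} (hl' : l' ≤ L) (i : ℕ) :
    (∀ ν, Dom O g ν0 ν → ν.valuation (X i * TT b c (q0 * 2 ^ l')) < 1) ∨
      (∀ ν, Dom O g ν0 ν → ν.valuation (X i * TT b c (q0 * 2 ^ l') - 1) < 1) ∨
      (∀ ν, Dom O g ν0 ν → 1 < ν.valuation (X i * TT b c (q0 * 2 ^ l'))) :=
  const_P1 R.base fun ν hν => D_status ν.valuation (R.dctx ν hν) hX (R.TL ν hν l' hl') i

theorem status_T' (R : Rep O g ν0 b c q0 L W W') {N : ℕ} {l : k} {X : ℕ → K}
    (hX : WCyc b c N (algebraMap k K l) X) (hl : 1 < O.valuation l) (i : ℕ) :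
    (∀ ν, Dom O g ν0 ν → ν.valuation (X i / TT b c (q0 * 2 ^ L)) < 1) ∨
      (∀ ν, Dom O g ν0 ν → ν.valuation (X i / TT b c (q0 * 2 ^ L) - 1) < 1) ∨
      (∀ ν, Dom O g ν0 ν → 1 < ν.valuation (X i / TT b c (q0 * 2 ^ L))) :=
  const_P1 R.base fun ν hν => D_status' ν.valuation (R.dctx ν hν) hX (R.TL ν hν L le_rfl)
    (exists_small (dom_ext R.base hν) (R.dctx ν hν).vb hX hl) i

theorem v_one_of_sub_one {ν : ValuationSubring K} {x : K} (h : ν.valuation (x - 1) < 1) :
    ν.valuation x = 1 := v_eq_one_of_sub h (map_one _)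

/-- a point of finite status is a hole at all Gauss-type valuations -/
theorem finite_hole (R : Rep O g ν0 b c q0 L W W') {X : K}
    (h : ∀ ν, Dom O g ν0 ν → ν.valuation (X * TT b c (q0 * 2 ^ L)) ≤ 1)
    {ν : ValuationSubring K} (hν : IsGauss O g ν0 ν) : ν.valuation X ≤ 1 := by
  have hq0 : 0 < q0 * 2 ^ L := by
    have h0 := (R.dctx ν0 (dom_self R.base)).odd.pos
    positivity
  obtain ⟨ν', hle, hν'⟩ := exists_dom_le R.base hν.le
  have h1 := val_le_of_le hle (h ν' hν')
  have Gc := R.gctx ν hν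
  have h4 := v_T_gauss Gc hq0
  have hc0 : ν.valuation c ≠ 0 := (ν.valuation.ne_zero_iff).2 Gc.c0
  have hT : 1 < ν.valuation (TT b c (q0 * 2 ^ L)) := by
    rw [eq_inv_of_mul_eq_one_left h4]
    exact (one_lt_inv₀ (zero_lt_iff.2 hc0)).2 Gc.vc
  by_contra hc
  rw [not_le] at hc
  rw [map_mul] at h1
  exact absurd h1 (not_le.2 (hc.trans_le (le_mul_of_one_le_right' hT.le)))

theorem beta_pos {ν' ν : ValuationSubring K} {q0 : ℕ} (hq : 0 < q0) (Gc : GCtx ν.valuation b c) :
    0 < ν'.valuation (b ^ q0 - 1) := by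
  rw [zero_lt_iff, ν'.valuation.ne_zero_iff]
  exact ne_zero_of_v_one (Gc.one q0 hq)

end

end Pool.Agent.helper56.P3
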